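import Pool.Agent.Helper20.Sparse.Main
import Pool.Agent.Helper20.Spectra.Approx

/-!
# One spectrum for all exponents
-/

set_option autoImplicit false

namespace Pool.Agent.Helper20.Spectra

lemma two_adic {m m₁ : ℕ} : ∀ {c c₁ : ℕ}, 2 ^ c * (2 * m + 1) = 2 ^ c₁ * (2 * m₁ + 1) →
    c = c₁ ∧ m = m₁
  | 0, 0, h => by
    refine ⟨rfl, ?_⟩
    omega
  | 0, c₁ + 1, h => by
    exfalso
    rw [pow_zero, one_mul, pow_succ, mul_comm (2 ^ c₁) 2, mul_assoc] at h
    omega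
  | c + 1, 0, h => by
    exfalso
    rw [pow_zero, one_mul, pow_succ, mul_comm (2 ^ c) 2, mul_assoc] at h
    omega
  | c + 1, c₁ + 1, h => by
    have h1 : 2 ^ c * (2 * m + 1) = 2 ^ c₁ * (2 * m₁ + 1) := by
      rw [pow_succ, pow_succ, mul_comm (2 ^ c) 2, mul_comm (2 ^ c₁) 2, mul_assoc, mul_assoc] at h
      omega
    obtain ⟨h2, h3⟩ := two_adic h1
    exact ⟨by rw [h2], h3⟩

/-- the powers with positive base -/
lemma eso_pow : ESO none0 3 (fun _ v => 1 ≤ v 1 ∧ v 2 = v 1 ^ v 0) := by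
  have h2 : ESO (Sum.elim none0 (fun _ : Unit => 2)) 3 (fun Y v =>
      1 ≤ v 1 ∧ PowRec (fun i => Y (Sum.inr i)) (v 0) (v 1) (v 2)) := by
    refine ESO.of ((RudX.le (IsPoly.const 1) (IsPoly.var 1)).and' (RudX.and' ?_ (RudX.and' ?_ ?_)))
    · exact RudX.all (IsPoly.var 2) (RudX.iff (so2_inr (IsPoly.const 0) (IsPoly.var 0))
        (RudX.eq (IsPoly.var 0) (IsPoly.const 1)))
    · refine RudX.all (IsPoly.var 0) (RudX.imp (RudX.lt (IsPoly.var 0) (IsPoly.var 1))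
        (RudX.all (IsPoly.var 3) (RudX.iff
          (so2_inr ((IsPoly.var 1).add (IsPoly.const 1)) (IsPoly.var 0))
          (RudX.ex (IsPoly.var 4) ((so2_inr (IsPoly.var 2) (IsPoly.var 0)).and'
            (RudX.eq (IsPoly.var 1) ((IsPoly.var 0).mul (IsPoly.var 4))))))))
    · exact so2_inr (IsPoly.var 0) (IsPoly.var 2)
  refine h2.exSO.congr (fun X v => ?_)
  constructor
  · rintro ⟨h, h1⟩
    obtain ⟨W, hW⟩ := (exists_powRec h).2 h1
    exact ⟨W, h, hW⟩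
  · rintro ⟨W, h, hW⟩
    exact ⟨h, (exists_powRec h).1 ⟨W, hW⟩⟩

lemma eso_squareSizes (Θ : Finset (ℕ × ℕ × ℕ × ℕ)) {k : ℕ} {t : (Fin k → ℕ) → ℕ}
    (ht : IsPoly k t) : ESO none0 k (fun _ v => t v ∈ squareSizes Θ) := by
  obtain ⟨C, hC⟩ := exists_SqCond Θ
  refine (ESO.ofEx (SqCond_rudX Θ C ht) none0).congr (fun X v => ?_)
  exact hC _

/-- all stretchings at once -/
def UAll (A : Set ℕ) : Set ℕ :=
  {m | 1 ≤ m ∧ ∃ c, c ≤ m ∧ ∃ u, u ≤ m ∧ ∃ r, r ≤ m ∧ ∃ n, n ≤ m ∧ ∃ e, e ≤ m ∧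
    ((m = u * (2 * r + 1) ∧ (e * n ≤ r ∧ r < e * n + e)) ∧ ((1 ≤ 2 ∧ u = 2 ^ c) ∧
      ((1 ≤ n ∧ e = n ^ c) ∧ n ∈ A)))}

lemma UAll_isSpectrum (Θ : Finset (ℕ × ℕ × ℕ × ℕ)) : IsSpectrum (UAll (squareSizes Θ)) := by
  refine ESO.isSpectrum ?_
  refine ESO.ex (IsPoly.var 0) (ESO.ex (IsPoly.var 1) (ESO.ex (IsPoly.var 2)
    (ESO.ex (IsPoly.var 3) (ESO.ex (IsPoly.var 4) (ESO.and (ESO.of ?_) (ESO.and ?_ (ESO.and ?_ ?_)))))))
  · refine RudX.and' ?_ (RudX.and' ?_ ?_)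
    · exact RudX.eq (s := fun w => w 5) (IsPoly.var 5)
        ((IsPoly.var 3).mul (((IsPoly.const 2).mul (IsPoly.var 2)).add (IsPoly.const 1)))
    · exact RudX.le (s := fun w => w 0 * w 1) (t := fun w => w 2)
        ((IsPoly.var 0).mul (IsPoly.var 1)) (IsPoly.var 2)
    · exact RudX.lt (s := fun w => w 2) (t := fun w => w 0 * w 1 + w 0) (IsPoly.var 2)
        (((IsPoly.var 0).mul (IsPoly.var 1)).add (IsPoly.var 0))
  · refine (eso_pow.substNum (m := 6) (f := ![fun w => w 4, fun _ => 2, fun w => w 3]) ?_).congr ?_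
    · intro i
      fin_cases i
      · exact IsPoly.var 4
      · exact IsPoly.const 2
      · exact IsPoly.var 3
    · intro X w
      rfl
  · refine (eso_pow.substNum (m := 6) (f := ![fun w => w 4, fun w => w 1, fun w => w 0]) ?_).congr ?_
    · intro i
      fin_cases i
      · exact IsPoly.var 4
      · exact IsPoly.var 1
      · exact IsPoly.var 0
    · intro X w
      rfl
  · exact eso_squareSizes Θ (t := fun w => w 1) (IsPoly.var 1)

lemma mem_UAll {A : Set ℕ} (c r : ℕ) : 2 ^ c * (2 * r + 1) ∈ UAll A ↔ r ∈ stretch c A := by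
  constructor
  · rintro ⟨_, c', _, u, _, r', _, n, _, e, _, ⟨h1, h2, h3⟩, ⟨_, rfl⟩, ⟨h4, rfl⟩, hA⟩
    obtain ⟨rfl, rfl⟩ := two_adic h1
    exact ⟨n, h4, hA, by rw [pow_succ]; exact h2, by rw [pow_succ]; exact h3⟩
  · rintro ⟨n, hn, hA, h1, h2⟩
    have h3 : 1 ≤ 2 ^ c := Nat.one_le_two_pow
    have h4 : r ≤ 2 ^ c * (2 * r + 1) := by nlinarith
    have h5 : c < 2 ^ c := Nat.lt_two_pow_self
    have h6 : 2 ^ c ≤ 2 ^ c * (2 * r + 1) := Nat.le_mul_of_pos_right _ (by omega)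
    have h7 : n ^ c ≤ n ^ (c + 1) := Nat.pow_le_pow_right hn (by omega)
    have h8 : n ≤ n ^ (c + 1) := Nat.le_self_pow (by omega) n
    refine ⟨by omega, c, by omega, 2 ^ c, h6, r, h4, n, by omega, n ^ c, by omega,
      ⟨rfl, ?_, ?_⟩, ⟨by omega, rfl⟩, ⟨hn, rfl⟩, hA⟩
    · rw [← pow_succ]; exact h1
    · rw [← pow_succ]; exact h2

/-- one spectrum for all exponents -/
theorem all_eps : ∃ U : Set ℕ, IsSpectrum U ∧
    ((∀ A : Set ℕ, IsSpectrum A → IsRudimentary A) ↔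
      ∃ ε : ℝ, 0 < ε ∧ ∃ R : Set ℕ, IsRudimentary R ∧ ∃ C : ℝ, ∀ x : ℕ, 1 ≤ x →
        (({m : ℕ | m < x ∧ ¬ (m ∈ U ↔ m ∈ R)} : Set ℕ).ncard : ℝ) ≤
          C * (x : ℝ) ^ (1 - ε)) := by
  obtain ⟨Θ₀, hΘ₀⟩ := exists_universal_blocks
  have hU := UAll_isSpectrum Θ₀
  refine ⟨UAll (squareSizes Θ₀), hU, ?_, ?_⟩
  · intro h
    refine ⟨1, one_pos, _, h _ hU, 0, fun x _ => ?_⟩
    simp
  · rintro ⟨ε, hε, R, hR, C, hC⟩
    obtain ⟨c, hc, hexp⟩ := exists_exponent hε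
    have hT : IsRudimentary (squareSizes Θ₀) := by
      classical
      set D : ℝ := ((2 ^ (c + 1) : ℕ) : ℝ) ^ (1 - ε) with hD
      have hD0 : 0 ≤ D := by positivity
      obtain ⟨K, hK⟩ := exists_nat_ge (2 * |C| * D)
      have hR' : IsRudimentary {r : ℕ | 2 ^ c * (2 * r + 1) ∈ R} := by
        apply isRudimentary_of
        exact RudX.mem hR ((IsPoly.const (2 ^ c)).mul (((IsPoly.const 2).mul (IsPoly.var 0)).add
          (IsPoly.const 1)))
      have hblock : ∀ n, 1 ≤ n → ∀ s : Finset ℕ, (∀ w ∈ s, w < n ^ c ∧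
          ¬ (n ^ (c + 1) + w ∈ stretch c (squareSizes Θ₀) ↔
            n ^ (c + 1) + w ∈ {r : ℕ | 2 ^ c * (2 * r + 1) ∈ R})) →
          s.card ≤ K * n ^ (c - 1) := by
        intro n hn s hs
        have hn1 : n ^ c ≤ n ^ (c + 1) := Nat.pow_le_pow_right hn (by omega)
        have hpos : 1 ≤ n ^ (c + 1) := Nat.one_le_pow _ _ hn
        have h2c : 1 ≤ 2 ^ c := Nat.one_le_two_pow
        have h1 := hC (2 ^ (c + 1) * (2 * n ^ (c + 1))) (by
          have : 0 < 2 ^ (c + 1) * (2 * n ^ (c + 1)) := by positivity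
          omega)
        have hfin : ({m : ℕ | m < 2 ^ (c + 1) * (2 * n ^ (c + 1)) ∧
            ¬ (m ∈ UAll (squareSizes Θ₀) ↔ m ∈ R)} : Set ℕ).Finite :=
          (Set.finite_Iio _).subset (fun m hm => hm.1)
        have h2 : s.card ≤ ({m : ℕ | m < 2 ^ (c + 1) * (2 * n ^ (c + 1)) ∧
            ¬ (m ∈ UAll (squareSizes Θ₀) ↔ m ∈ R)} : Set ℕ).ncard := by
          rw [← Set.ncard_coe_finset s]
          refine Set.ncard_le_ncard_of_injOn (fun w => 2 ^ c * (2 * (n ^ (c + 1) + w) + 1)) ?_ ?_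
            hfin
          · intro w hw
            obtain ⟨h3, h4⟩ := hs w hw
            refine ⟨?_, ?_⟩
            · have h5 : 2 * (n ^ (c + 1) + w) + 1 < 4 * n ^ (c + 1) := by omega
              calc 2 ^ c * (2 * (n ^ (c + 1) + w) + 1) < 2 ^ c * (4 * n ^ (c + 1)) :=
                    Nat.mul_lt_mul_of_pos_left h5 (by omega)
                _ = 2 ^ (c + 1) * (2 * n ^ (c + 1)) := by ring
            · rw [mem_UAll]
              exact h4
          · intro w _ w' _ h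
            beta_reduce at h
            have h5 := (two_adic h).2
            omega
        have h3 : (s.card : ℝ) ≤ (K * n ^ (c - 1) : ℕ) := by
          calc (s.card : ℝ) ≤ _ := Nat.cast_le.2 h2
            _ ≤ C * ((2 ^ (c + 1) * (2 * n ^ (c + 1)) : ℕ) : ℝ) ^ (1 - ε) := h1
            _ ≤ |C| * ((2 ^ (c + 1) * (2 * n ^ (c + 1)) : ℕ) : ℝ) ^ (1 - ε) :=
                mul_le_mul_of_nonneg_right (le_abs_self C) (by positivity)
            _ = |C| * (D * ((2 * n ^ (c + 1) : ℕ) : ℝ) ^ (1 - ε)) := by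
                rw [Nat.cast_mul, Real.mul_rpow (Nat.cast_nonneg _) (Nat.cast_nonneg _)]
            _ ≤ |C| * (D * (2 * (n : ℝ) ^ (c - 1))) :=
                mul_le_mul_of_nonneg_left (mul_le_mul_of_nonneg_left (hexp n hn) hD0)
                  (abs_nonneg C)
            _ = 2 * |C| * D * (n : ℝ) ^ (c - 1) := by ring
            _ ≤ K * (n : ℝ) ^ (c - 1) := mul_le_mul_of_nonneg_right hK (by positivity)
            _ = (K * n ^ (c - 1) : ℕ) := by push_cast; ring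
        exact_mod_cast h3
      refine isRudimentary_of_approx (K := K) hc hR' ?_ ?_
      · intro n hn hA
        refine ⟨{w ∈ Finset.range (n ^ c) | n ^ (c + 1) + w ∉
          {r : ℕ | 2 ^ c * (2 * r + 1) ∈ R}}, ?_, ?_⟩
        · intro w hw hwR
          exact Finset.mem_filter.2 ⟨Finset.mem_range.2 hw, hwR⟩
        · refine hblock n hn _ (fun w hw => ?_)
          rw [Finset.mem_filter, Finset.mem_range] at hw
          refine ⟨hw.1, fun h => hw.2 (h.1 ?_)⟩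
          exact (mem_stretch hn hw.1).2 hA
      · intro n hn hA
        refine ⟨{w ∈ Finset.range (n ^ c) | n ^ (c + 1) + w ∈
          {r : ℕ | 2 ^ c * (2 * r + 1) ∈ R}}, ?_, ?_⟩
        · intro w hw hwR
          exact Finset.mem_filter.2 ⟨Finset.mem_range.2 hw, hwR⟩
        · refine hblock n hn _ (fun w hw => ?_)
          rw [Finset.mem_filter, Finset.mem_range] at hw
          refine ⟨hw.1, fun h => hA ?_⟩
          exact (mem_stretch hn hw.1).1 (h.2 hw.2)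
    intro A hA
    obtain ⟨q, rfl⟩ := hΘ₀ A hA
    exact hT.preimage q

end Pool.Agent.Helper20.Spectra
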