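import Pool.Agent.Helper20.Loc.Form

/-!
# Good parameters exist, decoding is correct
-/

set_option autoImplicit false

namespace Pool.Agent.Helper20.Spectra

open LocHash (Cov cov_le cov_of_card good_hash)

open Classical in
/-- the window as a finite set -/
noncomputable def WinF (D : Set ℕ) (c N : ℕ) : Finset ℕ := {d ∈ Finset.range (N ^ c) | Win D c N d}

lemma mem_WinF {D : Set ℕ} {c N d : ℕ} : d ∈ WinF D c N ↔ Win D c N d := by
  classical
  rw [WinF, Finset.mem_filter, Finset.mem_range]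
  exact ⟨fun h => h.2, fun h => ⟨h.2.2, h⟩⟩

lemma card_WinF_le (D : Set ℕ) (c N : ℕ) : (WinF D c N).card ≤ N ^ c := by
  classical
  refine (Finset.card_filter_le _ _).trans ?_
  rw [Finset.card_range]

/-- covering from cardinality, in windows -/
lemma cov_window {D : Set ℕ} {c N p m : ℕ} (hN : 2 ≤ N) (hp : p.Prime) (hpN : N ^ (c + 1) ≤ p)
    {G : ℕ → Prop} {G' : Finset ℕ} (hG' : G' ⊆ WinF D c N) (hG : ∀ d ∈ G', G d)
    (hcard : 2 * m * N ≤ G'.card) : Cov (c + 3) p G m := by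
  have h1 : G'.card ≤ N ^ c := (Finset.card_le_card hG').trans (card_WinF_le D c N)
  have h2 : N ^ c ≤ N ^ (c + 1) := Nat.pow_le_pow_right (by omega) (by omega)
  have h3 : N ^ c < N ^ (c + 3) := Nat.pow_lt_pow_right (by omega) (by omega)
  have h4 : m ≤ 2 * m * N := by nlinarith
  have h5 : N ^ c < N ^ (c + 1) := Nat.pow_lt_pow_right (by omega) (by omega)
  refine cov_of_card hp (G' := G') (K := N) (fun d hd => ⟨hG d hd, ?_⟩) (by omega) hcard (by omega)
  have := (mem_WinF.1 (hG' hd)).2.2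
  omega

/-- bounds from good parameters -/
lemma good_bounds {D : Set ℕ} {c N : ℕ} (hN : 2 ≤ N) {w : Fin 4 → ℕ} (h : Gd D c (c + 3) N w)
    (hcard : 2 * N ^ 9 ≤ (WinF D c N).card) :
    (w 0).Prime ∧ 1 ≤ w 3 ∧ w 3 * N ^ 8 ≤ (c + 3) * (WinF D c N).card ∧
      (WinF D c N).card ≤ 4 * w 3 * N ^ 9 := by
  obtain ⟨⟨h1, h2⟩, h3, h4, h5, _⟩ := h
  have hp : (w 0).Prime := by
    rw [Nat.prime_def]
    refine ⟨h1, fun m hm => ?_⟩
    obtain ⟨r, hr⟩ := hm
    have hpos : 0 < w 0 := by omega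
    have h6 : m ≤ w 0 := Nat.le_of_dvd hpos ⟨r, hr⟩
    have h7 : r ≤ w 0 := Nat.le_of_dvd hpos ⟨m, by rw [hr]; ring⟩
    rcases h2 m h6 r h7 hr with h8 | h8
    · exact Or.inl h8
    · right
      rw [hr, h8, mul_one]
  have h6 := cov_le (fun d hd => mem_WinF.2 hd) h4
  have h7 : (WinF D c N).card < 2 * (w 3 + 1) * N ^ 9 := by
    by_contra hcon
    rw [not_lt] at hcon
    refine h5 (cov_window hN hp h3 (le_refl _) (fun d hd => mem_WinF.1 hd) ?_)
    calc 2 * ((w 3 + 1) * N ^ 8) * N = 2 * (w 3 + 1) * N ^ 9 := by ring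
      _ ≤ _ := hcon
  have hN9 : 0 < N ^ 9 := by positivity
  have h8 : 1 ≤ w 3 := by
    by_contra hcon
    have h9 : w 3 = 0 := by omega
    rw [h9] at h7
    omega
  refine ⟨hp, h8, h6, ?_⟩
  have h9 : 2 * (w 3 + 1) * N ^ 9 ≤ 4 * w 3 * N ^ 9 := Nat.mul_le_mul_right _ (by omega)
  omega

/-- good parameters exist -/
lemma exists_good {D : Set ℕ} {c N : ℕ} (hN : 16 * (c + 3) < N)
    (hcard : 2 * N ^ 9 ≤ (WinF D c N).card) :
    ∃ w : Fin 4 → ℕ, (∀ i, w i ≤ Bd c (c + 3) N) ∧ Gd D c (c + 3) N w := by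
  classical
  set g := (WinF D c N).card with hg
  have hN2 : 2 ≤ N := by omega
  have hgN : g ≤ N ^ c := card_WinF_le D c N
  obtain ⟨p, hp, hp1, hp2⟩ := Nat.exists_prime_lt_and_le_two_mul (N ^ (c + 1)) (by positivity)
  have hex : ∃ μ, ¬ Cov (c + 3) p (Win D c N) (μ * N ^ 8) := by
    refine ⟨(c + 3) * g + 1, fun h => ?_⟩
    have h1 := cov_le (fun d hd => mem_WinF.2 hd) h
    have h2 : 1 ≤ N ^ 8 := Nat.one_le_pow _ _ (by omega)
    rw [← hg] at h1
    have h3 := Nat.mul_le_mul_left ((c + 3) * g + 1) h2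
    omega
  obtain ⟨ν, hν, hνmin⟩ : ∃ ν, ¬ Cov (c + 3) p (Win D c N) (ν * N ^ 8) ∧
      ∀ j, j < ν → Cov (c + 3) p (Win D c N) (j * N ^ 8) :=
    ⟨Nat.find hex, Nat.find_spec hex, fun j hj => by
      by_contra h
      exact Nat.find_min hex hj h⟩
  obtain ⟨μ, rfl⟩ : ∃ μ, ν = μ + 1 := by
    rcases ν with _ | ν
    · exact absurd (cov_window (D := D) (G' := ∅) hN2 hp hp1.le (Finset.empty_subset _)
        (fun d hd => absurd hd (Finset.notMem_empty d)) (by simp)) hν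
    · exact ⟨ν, rfl⟩
  have hμ := hνmin μ (by omega)
  have h1 : μ * N ^ 8 ≤ (c + 3) * g := cov_le (fun d hd => mem_WinF.2 hd) hμ
  have h2 : g < 2 * (μ + 1) * N ^ 9 := by
    by_contra hcon
    rw [not_lt] at hcon
    refine hν (cov_window hN2 hp hp1.le (le_refl _) (fun d hd => mem_WinF.1 hd) ?_)
    calc 2 * ((μ + 1) * N ^ 8) * N = 2 * (μ + 1) * N ^ 9 := by ring
      _ ≤ _ := hcon
  have hμ1 : 1 ≤ μ := by
    by_contra hcon
    have h9 : μ = 0 := by omega
    rw [h9] at h2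
    omega
  have hN9 : 0 < N ^ 9 := by positivity
  have hgpos : 0 < g := by omega
  -- the hash function
  obtain ⟨α, β, hα, hβ, hfib⟩ := good_hash (p := p) (N := N) (M := 4 * μ * N ^ 5) (G := WinF D c N)
    hp (fun d hd => by
      have h3 := (mem_WinF.1 hd).2.2
      have h4 : N ^ c ≤ N ^ (c + 1) := Nat.pow_le_pow_right (by omega) (by omega)
      omega) (by omega) (by
      have : 0 < 4 * μ * N ^ 5 := by positivity
      omega) (by
      calc N * (4 * μ * N ^ 5) = 4 * (μ * N ^ 6) := by ring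
        _ ≤ N ^ 2 * (μ * N ^ 6) := Nat.mul_le_mul_right _ (by nlinarith)
        _ = μ * N ^ 8 := by ring
        _ ≤ (c + 3) * g := h1
        _ ≤ N * N ^ c := Nat.mul_le_mul (by omega) hgN
        _ = N ^ (c + 1) := by ring
        _ ≤ p := hp1.le) (by
      have h3 : 4 * N ^ 2 * (4 * μ * N ^ 5) * N < g * N := by
        calc 4 * N ^ 2 * (4 * μ * N ^ 5) * N = 16 * (μ * N ^ 8) := by ring
          _ ≤ 16 * ((c + 3) * g) := Nat.mul_le_mul_left _ h1
          _ = (16 * (c + 3)) * g := by ring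
          _ < N * g := Nat.mul_lt_mul_of_pos_right hN hgpos
          _ = g * N := Nat.mul_comm _ _
      exact Nat.lt_of_mul_lt_mul_right h3)
  refine ⟨![p, α, β, μ], ?_, ⟨⟨hp.two_le, ?_⟩, hp1.le, hμ, hν, ?_⟩⟩
  · have h3 : μ ≤ (c + 3) * N ^ c := by
      calc μ = μ * 1 := (mul_one μ).symm
        _ ≤ μ * N ^ 8 := Nat.mul_le_mul_left _ (Nat.one_le_pow _ _ (by omega))
        _ ≤ (c + 3) * g := h1
        _ ≤ (c + 3) * N ^ c := Nat.mul_le_mul_left _ hgN
    intro i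
    unfold Bd
    fin_cases i
    · show p ≤ _
      omega
    · show α ≤ _
      omega
    · show β ≤ _
      omega
    · show μ ≤ _
      omega
  · intro q _ r _ h
    have h' : p = q * r := h
    have h3 : q ∣ p := ⟨r, h'⟩
    rcases (Nat.dvd_prime hp).1 h3 with h4 | h4
    · exact Or.inl h4
    · right
      rw [h4] at h'
      have h5 : p * 1 = p * r := by rw [mul_one]; exact h'
      exact (Nat.eq_of_mul_eq_mul_left hp.pos h5).symm
  · intro y _ hy
    refine cov_window hN2 hp hp1.le (G' := (WinF D c N).filter (fun d => (α * d + β) % p % N = y))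
      (Finset.filter_subset _ _) (fun d hd => ?_) ?_
    · rw [Finset.mem_filter] at hd
      exact ⟨mem_WinF.1 hd.1, hd.2⟩
    · have h3 := hfib y hy
      show 2 * (μ * N ^ 4) * N ≤ _
      have h4 : 2 * (μ * N ^ 4) * N = 2 * μ * N ^ 5 := by ring
      have h5 : 4 * μ * N ^ 5 = 2 * (2 * μ * N ^ 5) := by ring
      omega

/-- decoding at one scale -/
lemma decode_scale {D A R : Set ℕ} {c K N : ℕ} (hc : 2 ≤ c) (hN : 16 * (c + 3) < N)
    (hK : 4 * K * (c + 3) < N) (hS : Scl c N) (hcard : 2 * N ^ 9 ≤ (WinF D c N).card)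
    {E : Finset ℕ} (hE : ∀ d, Win D c N d → ¬ (d ∈ USet D A c (c + 3) ↔ d ∈ R) → d ∈ E)
    (hEc : E.card * N ^ 12 ≤ K * (WinF D c N).card) {w : Fin 4 → ℕ} (hw : LG D c (c + 3) N w)
    {y : ℕ} (hy : y < N) :
    Cov (c + 3) (w 0) (fun d => (Win D c N d ∧ (w 1 * d + w 2) % w 0 % N = y) ∧ d ∈ R) (w 3) ↔
      y ∈ A := by
  classical
  have hN2 : 2 ≤ N := by omega
  obtain ⟨hp, hμ1, h1, h2⟩ := good_bounds hN2 hw.2.1 hcard
  obtain ⟨_, hpN, _, _, hcov⟩ := hw.2.1
  set g := (WinF D c N).card with hg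
  set t := c + 3 with ht
  have hN9 : 0 < N ^ 9 := by positivity
  have hE1 : E.card * N ^ 3 ≤ 4 * K * w 3 := by
    have h3 : E.card * N ^ 3 * N ^ 9 ≤ 4 * K * w 3 * N ^ 9 := by
      calc E.card * N ^ 3 * N ^ 9 = E.card * N ^ 12 := by ring
        _ ≤ K * g := hEc
        _ ≤ K * (4 * w 3 * N ^ 9) := Nat.mul_le_mul_left _ h2
        _ = 4 * K * w 3 * N ^ 9 := by ring
    exact Nat.le_of_mul_le_mul_right h3 hN9
  have hE2 : t * E.card * N ^ 3 ≤ w 3 * (4 * K * t) := by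
    calc t * E.card * N ^ 3 = t * (E.card * N ^ 3) := by ring
      _ ≤ t * (4 * K * w 3) := Nat.mul_le_mul_left _ hE1
      _ = _ := by ring
  have hN3 : N ≤ N ^ 3 := Nat.le_self_pow (by omega) N
  have hmem : ∀ d, Win D c N d → (w 1 * d + w 2) % w 0 % N = y →
      (d ∈ USet D A c (c + 3) ↔ y ∈ A) := fun d hd h => mem_USet hc hS hd hw h
  constructor
  · intro h
    by_contra hA
    have h3 : w 3 ≤ t * E.card := by
      refine cov_le (fun d hd => hE d hd.1.1 ?_) h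
      rw [hmem d hd.1.1 hd.1.2]
      exact fun h4 => hA (h4.2 hd.2)
    have h4 : w 3 * N ^ 3 ≤ w 3 * (4 * K * t) :=
      (Nat.mul_le_mul_right _ h3).trans hE2
    have h5 := Nat.le_of_mul_le_mul_left h4 (by omega)
    omega
  · intro hA
    let P := (WinF D c N).filter (fun d => (w 1 * d + w 2) % w 0 % N = y)
    have h3 : w 3 * N ^ 4 ≤ t * P.card := by
      refine cov_le (fun d hd => ?_) (hcov y hy.le hy)
      exact Finset.mem_filter.2 ⟨mem_WinF.2 hd.1, hd.2⟩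
    let P' := P.filter (fun d => d ∈ R)
    have h4 : P.card ≤ P'.card + E.card := by
      have h5 : P ⊆ P' ∪ E := by
        intro d hd
        rw [Finset.mem_union]
        by_cases hR : d ∈ R
        · exact Or.inl (Finset.mem_filter.2 ⟨hd, hR⟩)
        · right
          have h6 := Finset.mem_filter.1 hd
          refine hE d (mem_WinF.1 h6.1) ?_
          rw [hmem d (mem_WinF.1 h6.1) h6.2]
          exact fun h7 => hR (h7.1 hA)
      exact (Finset.card_le_card h5).trans (Finset.card_union_le _ _)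
    refine cov_window hN2 hp hpN (G' := P')
      ((Finset.filter_subset _ _).trans (Finset.filter_subset _ _)) (fun d hd => ?_) ?_
    · have h5 := Finset.mem_filter.1 hd
      have h6 := Finset.mem_filter.1 h5.1
      exact ⟨⟨mem_WinF.1 h6.1, h6.2⟩, h5.2⟩
    · have h5 : t * E.card ≤ w 3 * N := by
        have h6 : t * E.card * N ^ 3 ≤ w 3 * N * N ^ 3 := by
          calc t * E.card * N ^ 3 ≤ w 3 * (4 * K * t) := hE2
            _ ≤ w 3 * N := Nat.mul_le_mul_left _ (by omega)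
            _ = w 3 * N * 1 := (mul_one _).symm
            _ ≤ w 3 * N * N ^ 3 := Nat.mul_le_mul_left _ (Nat.one_le_pow _ _ (by omega))
        exact Nat.le_of_mul_le_mul_right h6 (by positivity)
      have h6 : w 3 * N ^ 4 ≤ t * P'.card + w 3 * N := by
        calc w 3 * N ^ 4 ≤ t * P.card := h3
          _ ≤ t * (P'.card + E.card) := Nat.mul_le_mul_left _ h4
          _ = t * P'.card + t * E.card := by ring
          _ ≤ _ := Nat.add_le_add_left h5 _
      have h7 : t * (2 * w 3 * N) + w 3 * N ≤ w 3 * N ^ 4 := by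
        have h8 : 2 * t + 1 ≤ N ^ 3 := by omega
        calc t * (2 * w 3 * N) + w 3 * N = (w 3 * N) * (2 * t + 1) := by ring
          _ ≤ (w 3 * N) * N ^ 3 := Nat.mul_le_mul_left _ h8
          _ = w 3 * N ^ 4 := by ring
      have h8 : t * (2 * w 3 * N) ≤ t * P'.card := by omega
      exact Nat.le_of_mul_le_mul_left h8 (by omega)

/-- decoding -/
lemma decode {D A R : Set ℕ} {c K : ℕ} (hc : 2 ≤ c) {n₀ : ℕ}
    (hcard : ∀ N, n₀ ≤ N → 2 * N ^ 9 ≤ (WinF D c N).card)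
    (hE : ∀ N, n₀ ≤ N → ∃ E : Finset ℕ,
      (∀ d, Win D c N d → ¬ (d ∈ USet D A c (c + 3) ↔ d ∈ R) → d ∈ E) ∧
      E.card * N ^ 12 ≤ K * (WinF D c N).card) :
    ∃ y₀, ∀ y, y₀ ≤ y → (y ∈ A ↔ Dc D R c (c + 3) y) := by
  refine ⟨n₀ + 16 * (c + 3) + 4 * K * (c + 3), fun y hy => ?_⟩
  constructor
  · intro hA
    obtain ⟨N, hN1, hN2, hN3⟩ := exists_scl hc y
    obtain ⟨E, hE1, hE2⟩ := hE N (by omega)
    have h1 := hcard N (by omega)
    obtain ⟨w', hw', hg⟩ := exists_good (D := D) (c := c) (N := N) (by omega) h1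
    obtain ⟨w, hw⟩ := exists_LG hw' hg
    exact ⟨N, hN3, hN1, hN2, w, hw.1, hw,
      (decode_scale hc (by omega) (by omega) hN1 h1 hE1 hE2 hw hN2).2 hA⟩
  · rintro ⟨N, _, hN1, hN2, w, _, hw, h⟩
    obtain ⟨E, hE1, hE2⟩ := hE N (by omega)
    exact (decode_scale hc (by omega) (by omega) hN1 (hcard N (by omega)) hE1 hE2 hw hN2).1 h

/-- the coded set is rudimentary if the code is well approximated -/
lemma rud_of_decode {D A R : Set ℕ} {c K : ℕ} (hc : 2 ≤ c) (hD : IsRudimentary D)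
    (hR : IsRudimentary R) {n₀ : ℕ} (hcard : ∀ N, n₀ ≤ N → 2 * N ^ 9 ≤ (WinF D c N).card)
    (hE : ∀ N, n₀ ≤ N → ∃ E : Finset ℕ,
      (∀ d, Win D c N d → ¬ (d ∈ USet D A c (c + 3) ↔ d ∈ R) → d ∈ E) ∧
      E.card * N ^ 12 ≤ K * (WinF D c N).card) : IsRudimentary A := by
  classical
  obtain ⟨y₀, hy₀⟩ := decode hc hcard hE
  apply isRudimentary_of
  refine (RudX.or (RudX.ex_finset (Finset.range y₀) (P := fun i _ v => i ∈ A ∧ v 0 = i)
    (fun i _ => RudX.and' (RudX.const _) (RudX.eq (IsPoly.var 0) (IsPoly.const i))))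
    (RudX.and' (RudX.le (IsPoly.const y₀) (IsPoly.var 0))
      (Dc_rudX hD hR hc (c + 3) (IsPoly.var 0)))).congr ?_
  intro X v
  constructor
  · intro hv
    rcases Nat.lt_or_ge (v 0) y₀ with h | h
    · exact Or.inl ⟨v 0, Finset.mem_range.2 h, hv, rfl⟩
    · exact Or.inr ⟨h, (hy₀ _ h).1 hv⟩
  · rintro (⟨i, _, hi, h⟩ | ⟨h, h'⟩)
    · rw [h]; exact hi
    · exact (hy₀ _ h).2 h'

end Pool.Agent.Helper20.Spectra
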