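import Pool.Agent.Helper20.Sparse.Main

/-!
# Doubly exponential scales are rudimentary
-/

set_option autoImplicit false

namespace Pool.Agent.Helper20.Spectra

/-- the scales `2 ^ (c ^ i)` -/
def Scl (c x : ℕ) : Prop := ∃ i, x = 2 ^ (c ^ i)

/-- powers of two -/
def Pw (x : ℕ) : Prop := 1 ≤ x ∧ ∀ y, y ≤ x → ∀ q, q ≤ x → (x = q * y → (y = 1 ∨ ∃ z, z ≤ y ∧ y = 2 * z))

lemma pw_iff (x : ℕ) : Pw x ↔ ∃ k, x = 2 ^ k := by
  constructor
  · rintro ⟨hx, h⟩
    rcases Nat.eq_two_pow_or_exists_odd_prime_and_dvd x with h1 | ⟨p, hp, hpx, hodd⟩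
    · exact h1
    · obtain ⟨q, hq⟩ := hpx
      have h2 : p ≤ x := Nat.le_of_dvd (by omega) ⟨q, hq⟩
      have h3 : q ≤ x := Nat.le_of_dvd (by omega) ⟨p, by rw [hq]; ring⟩
      rcases h p h2 q h3 (by rw [hq]; ring) with h4 | ⟨z, _, hz⟩
      · exact absurd h4 hp.one_lt.ne'
      · rw [hz] at hodd
        exact absurd hodd (by simp)
  · rintro ⟨k, rfl⟩
    refine ⟨Nat.one_le_two_pow, fun y _ q _ h => ?_⟩
    have h1 : y ∣ 2 ^ k := ⟨q, by rw [h]; ring⟩
    obtain ⟨j, _, hj⟩ := (Nat.dvd_prime_pow Nat.prime_two).1 h1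
    rcases Nat.eq_zero_or_pos j with rfl | hj0
    · left
      rw [hj]
      rfl
    · right
      refine ⟨2 ^ (j - 1), ?_, ?_⟩
      · rw [hj]
        exact Nat.pow_le_pow_right (by norm_num) (by omega)
      · rw [hj, ← pow_succ']
        congr 1
        omega

/-- the bit of `S` at the power of two `p` -/
def BitP (p S : ℕ) : Prop := ∃ q, q ≤ S ∧ ∃ r, r ≤ S ∧ (r < p ∧ S = (2 * q + 1) * p + r)

lemma bitP_iff (k S : ℕ) : BitP (2 ^ k) S ↔ S.testBit k = true := by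
  rw [testBit_iff]
  constructor
  · rintro ⟨q, _, r, _, hr, h⟩
    exact ⟨q, r, hr, h⟩
  · rintro ⟨q, r, hr, h⟩
    refine ⟨q, ?_, r, ?_, hr, h⟩
    · have h1 : 1 ≤ 2 ^ k := Nat.one_le_two_pow
      rw [h]
      nlinarith
    · omega

/-- rudimentary description of the scales -/
def SclR (c x : ℕ) : Prop := Pw x ∧ ∃ S, S ≤ 2 * x ∧ (BitP x S ∧ ∀ p, p ≤ x → (Pw p →
  (BitP p S ↔ (p = 2 ∨ ∃ r, r ≤ p ∧ (Pw r ∧ (r < p ∧ (p = r ^ c ∧ BitP r S)))))))

lemma sclR_iff {c : ℕ} (hc : 2 ≤ c) (x : ℕ) : SclR c x ↔ Scl c x := by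
  constructor
  · rintro ⟨hx, S, _, hb, h⟩
    obtain ⟨K, rfl⟩ := (pw_iff x).1 hx
    have key : ∀ k, k ≤ K → (S.testBit k = true ↔ ∃ l, k = c ^ l) := by
      intro k
      induction k using Nat.strong_induction_on with
      | _ k ih =>
        intro hk
        have h1 := h (2 ^ k) (Nat.pow_le_pow_right (by norm_num) hk) ((pw_iff _).2 ⟨k, rfl⟩)
        rw [bitP_iff] at h1
        rw [h1]
        constructor
        · rintro (h2 | ⟨r, _, hr, hrk, he, hbr⟩)
          · have h3 : k = 1 := by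
              have : (2 : ℕ) ^ k = 2 ^ 1 := by rw [h2]; rfl
              exact Nat.pow_right_injective (le_refl 2) this
            exact ⟨0, by rw [h3, pow_zero]⟩
          · obtain ⟨j, rfl⟩ := (pw_iff r).1 hr
            rw [bitP_iff] at hbr
            rw [← pow_mul] at he
            have h3 : k = j * c := Nat.pow_right_injective (le_refl 2) he
            have h4 : j < k := (Nat.pow_lt_pow_iff_right (by norm_num)).1 hrk
            obtain ⟨l, hl⟩ := (ih j h4 (by omega)).1 hbr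
            exact ⟨l + 1, by rw [h3, hl, pow_succ]⟩
        · rintro ⟨l, hl⟩
          rcases Nat.eq_zero_or_pos l with rfl | hl0
          · left
            rw [hl]
            rfl
          · right
            obtain ⟨l, rfl⟩ : ∃ l', l = l' + 1 := ⟨l - 1, by omega⟩
            have h3 : c ^ l < k := by
              rw [hl, pow_succ]
              have : 0 < c ^ l := by positivity
              nlinarith
            refine ⟨2 ^ (c ^ l), Nat.pow_le_pow_right (by norm_num) h3.le, (pw_iff _).2 ⟨_, rfl⟩,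
              Nat.pow_lt_pow_right (by norm_num) h3, ?_, ?_⟩
            · rw [← pow_mul, hl, pow_succ]
            · rw [bitP_iff]
              exact (ih _ h3 (by omega)).2 ⟨l, rfl⟩
    rw [bitP_iff] at hb
    obtain ⟨l, hl⟩ := (key K le_rfl).1 hb
    exact ⟨l, by rw [hl]⟩
  · rintro ⟨i, rfl⟩
    refine ⟨(pw_iff _).2 ⟨_, rfl⟩, num (c ^ i + 1) (fun j => ∃ l, j = c ^ l), ?_, ?_, ?_⟩
    · have h1 := num_lt (c ^ i + 1) (fun j => ∃ l, j = c ^ l)
      rw [pow_succ] at h1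
      omega
    · rw [bitP_iff, testBit_num]
      exact ⟨by omega, i, rfl⟩
    · intro p hp hpw
      obtain ⟨k, rfl⟩ := (pw_iff p).1 hpw
      have hk : k ≤ c ^ i := (Nat.pow_le_pow_iff_right (by norm_num)).1 hp
      rw [bitP_iff, testBit_num]
      constructor
      · rintro ⟨_, l, hl⟩
        rcases Nat.eq_zero_or_pos l with rfl | hl0
        · left
          rw [hl]
          rfl
        · right
          obtain ⟨l, rfl⟩ : ∃ l', l = l' + 1 := ⟨l - 1, by omega⟩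
          have h3 : c ^ l < k := by
            rw [hl, pow_succ]
            have : 0 < c ^ l := by positivity
            nlinarith
          refine ⟨2 ^ (c ^ l), Nat.pow_le_pow_right (by norm_num) h3.le, (pw_iff _).2 ⟨_, rfl⟩,
            Nat.pow_lt_pow_right (by norm_num) h3, ?_, ?_⟩
          · rw [← pow_mul, hl, pow_succ]
          · rw [bitP_iff, testBit_num]
            exact ⟨by omega, l, rfl⟩
      · rintro (h2 | ⟨r, _, hr, hrk, he, hbr⟩)
        · have h3 : k = 1 := by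
            have : (2 : ℕ) ^ k = 2 ^ 1 := by rw [h2]; rfl
            exact Nat.pow_right_injective (le_refl 2) this
          exact ⟨by omega, 0, by rw [h3, pow_zero]⟩
        · obtain ⟨j, rfl⟩ := (pw_iff r).1 hr
          rw [bitP_iff, testBit_num] at hbr
          obtain ⟨_, l, hl⟩ := hbr
          rw [← pow_mul] at he
          have h3 : k = j * c := Nat.pow_right_injective (le_refl 2) he
          exact ⟨by omega, l + 1, by rw [h3, hl, pow_succ]⟩

/-! ### Windows -/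

lemma scl_two_le {c N : ℕ} (hc : 2 ≤ c) (h : Scl c N) : 2 ≤ N := by
  obtain ⟨i, rfl⟩ := h
  calc 2 = 2 ^ 1 := rfl
    _ ≤ 2 ^ (c ^ i) := Nat.pow_le_pow_right (by norm_num) (Nat.one_le_pow _ _ (by omega))

lemma exists_scl {c : ℕ} (hc : 2 ≤ c) (y : ℕ) : ∃ N, Scl c N ∧ y < N ∧ N ≤ y ^ c + 2 := by
  classical
  have hex : ∃ i, y < 2 ^ (c ^ i) := by
    refine ⟨y, ?_⟩
    calc y < 2 ^ y := Nat.lt_two_pow_self
      _ ≤ 2 ^ (c ^ y) := Nat.pow_le_pow_right (by norm_num)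
        (Nat.lt_pow_self (show 1 < c by omega)).le
  obtain ⟨i, hi, hmin⟩ : ∃ i, y < 2 ^ (c ^ i) ∧ ∀ j, j < i → ¬ y < 2 ^ (c ^ j) :=
    ⟨Nat.find hex, Nat.find_spec hex, fun j hj => Nat.find_min hex hj⟩
  refine ⟨2 ^ (c ^ i), ⟨i, rfl⟩, hi, ?_⟩
  rcases Nat.eq_zero_or_pos i with rfl | hi0
  · rw [pow_zero, pow_one]
    omega
  · obtain ⟨j, rfl⟩ : ∃ j, i = j + 1 := ⟨i - 1, by omega⟩
    have h1 := hmin j (by omega)
    rw [not_lt] at h1
    have h2 : 2 ^ (c ^ (j + 1)) = (2 ^ (c ^ j)) ^ c := by rw [← pow_mul, pow_succ]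
    rw [h2]
    exact (Nat.pow_le_pow_left h1 c).trans (Nat.le_add_right _ _)

lemma scl_unique {c N N' d : ℕ} (hc : 2 ≤ c) (h : Scl c N) (h' : Scl c N') (hN : N ≤ d)
    (hd : d < N ^ c) (hN' : N' ≤ d) (hd' : d < N' ^ c) : N = N' := by
  obtain ⟨i, rfl⟩ := h
  obtain ⟨j, rfl⟩ := h'
  have key : ∀ i j : ℕ, 2 ^ (c ^ i) ≤ d → d < (2 ^ (c ^ j)) ^ c → i ≤ j := by
    intro i j h1 h2
    rw [← pow_mul, ← pow_succ] at h2
    have h3 : c ^ i < c ^ (j + 1) := (Nat.pow_lt_pow_iff_right (by norm_num)).1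
      (lt_of_le_of_lt h1 h2)
    have h4 : i < j + 1 := (Nat.pow_lt_pow_iff_right (by omega)).1 h3
    omega
  rw [le_antisymm (key i j hN hd') (key j i hN' hd)]

section rud

variable {ι : Type} {a : ι → ℕ} {k : ℕ}

lemma Pw_rudX {t : (Fin k → ℕ) → ℕ} (ht : IsPoly k t) : RudX a k (fun _ v => Pw (t v)) := by
  refine RudX.and' (RudX.le (IsPoly.const 1) ht) (RudX.all ht (RudX.all ht.tail (RudX.imp ?_
    (RudX.or ?_ (RudX.ex (IsPoly.var 1) ?_)))))
  · exact RudX.eq ht.tail.tail ((IsPoly.var 0).mul (IsPoly.var 1))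
  · exact RudX.eq (s := fun w => w 1) (IsPoly.var 1) (IsPoly.const 1)
  · exact RudX.eq (s := fun w => w 2) (IsPoly.var 2) ((IsPoly.const 2).mul (IsPoly.var 0))

lemma BitP_rudX {s t : (Fin k → ℕ) → ℕ} (hs : IsPoly k s) (ht : IsPoly k t) :
    RudX a k (fun _ v => BitP (s v) (t v)) := by
  refine RudX.ex ht (RudX.ex ht.tail (RudX.and' ?_ ?_))
  · exact RudX.lt (s := fun w => w 0) (IsPoly.var 0) hs.tail.tail
  · exact RudX.eq ht.tail.tail (((((IsPoly.const 2).mul (IsPoly.var 1)).add (IsPoly.const 1)).mul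
      hs.tail.tail).add (IsPoly.var 0))

lemma SclR_rudX (c : ℕ) {t : (Fin k → ℕ) → ℕ} (ht : IsPoly k t) :
    RudX a k (fun _ v => SclR c (t v)) := by
  refine RudX.and' (Pw_rudX ht) (RudX.ex ((IsPoly.const 2).mul ht) (RudX.and' ?_ (RudX.all ht.tail
    (RudX.imp ?_ (RudX.iff ?_ (RudX.or ?_ (RudX.ex (IsPoly.var 0) (RudX.and' ?_ (RudX.and' ?_
      (RudX.and' ?_ ?_))))))))))
  · exact BitP_rudX ht.tail (IsPoly.var 0)
  · exact Pw_rudX (IsPoly.var 0)
  · exact BitP_rudX (s := fun w => w 0) (t := fun w => w 1) (IsPoly.var 0) (IsPoly.var 1)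
  · exact RudX.eq (s := fun w => w 0) (IsPoly.var 0) (IsPoly.const 2)
  · exact Pw_rudX (IsPoly.var 0)
  · exact RudX.lt (s := fun w => w 0) (t := fun w => w 1) (IsPoly.var 0) (IsPoly.var 1)
  · exact RudX.eq (s := fun w => w 1) (IsPoly.var 1) ((IsPoly.var 0).pow c)
  · exact BitP_rudX (s := fun w => w 0) (t := fun w => w 2) (IsPoly.var 0) (IsPoly.var 2)

lemma Scl_rudX {c : ℕ} (hc : 2 ≤ c) {t : (Fin k → ℕ) → ℕ} (ht : IsPoly k t) :
    RudX a k (fun _ v => Scl c (t v)) :=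
  (SclR_rudX c ht).congr (fun _ v => (sclR_iff hc (t v)).symm)

end rud

end Pool.Agent.Helper20.Spectra
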