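import Pool.Agent.Helper20.Loc.Hash
import Pool.Agent.Helper20.Loc.Scale
import Pool.Agent.Helper20.Iface.Def

/-!
# Covering formulas are rudimentary
-/

set_option autoImplicit false

namespace Pool.Agent.Helper20.Spectra

open LocHash (Cov)

/-- the window of `D` at the scale `N` -/
def Win (D : Set ℕ) (c N d : ℕ) : Prop := d ∈ D ∧ N ≤ d ∧ d < N ^ c

/-- good parameters `w = (p, α, β, μ)` at the scale `N` -/
def Gd (D : Set ℕ) (c t N : ℕ) (w : Fin 4 → ℕ) : Prop :=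
  (2 ≤ w 0 ∧ ∀ q, q ≤ w 0 → ∀ r, r ≤ w 0 → (w 0 = q * r → (q = 1 ∨ r = 1))) ∧
  (N ^ (c + 1) ≤ w 0 ∧ (Cov t (w 0) (Win D c N) (w 3 * N ^ 8) ∧
  (¬ Cov t (w 0) (Win D c N) ((w 3 + 1) * N ^ 8) ∧ ∀ y, y ≤ N → (y < N →
    Cov t (w 0) (fun d => Win D c N d ∧ (w 1 * d + w 2) % w 0 % N = y) (w 3 * N ^ 4)))))

/-- bound for the parameters -/
def Bd (c t N : ℕ) : ℕ := 2 * N ^ (c + 1) + t * N ^ c

/-- the least good parameters -/
def LG (D : Set ℕ) (c t N : ℕ) (w : Fin 4 → ℕ) : Prop :=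
  (∀ i, w i ≤ Bd c t N) ∧ (Gd D c t N w ∧ ∀ w' : Fin 4 → ℕ, (∀ i, w' i ≤ Bd c t N) →
    (Gd D c t N w' → tup 4 w ≤ tup 4 w'))

/-- `y` is the hash value of `d` -/
def HH (D : Set ℕ) (c t d y : ℕ) : Prop :=
  d ∈ D ∧ ∃ N, N ≤ d ∧ (Scl c N ∧ (d < N ^ c ∧ (y < N ∧
    ∃ w : Fin 4 → ℕ, (∀ i, w i ≤ Bd c t N) ∧ (LG D c t N w ∧ (w 1 * d + w 2) % w 0 % N = y))))

/-- decoding formula -/
def Dc (D R : Set ℕ) (c t y : ℕ) : Prop :=
  ∃ N, N ≤ y ^ c + 2 ∧ (Scl c N ∧ (y < N ∧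
    ∃ w : Fin 4 → ℕ, (∀ i, w i ≤ Bd c t N) ∧ (LG D c t N w ∧
      Cov t (w 0) (fun d => (Win D c N d ∧ (w 1 * d + w 2) % w 0 % N = y) ∧ d ∈ R) (w 3))))

section rud

variable {ι : Type} {a : ι → ℕ} {k : ℕ}

lemma HV_rudX {α β p N d y : (Fin k → ℕ) → ℕ} (hα : IsPoly k α) (hβ : IsPoly k β)
    (hp : IsPoly k p) (hN : IsPoly k N) (hd : IsPoly k d) (hy : IsPoly k y) :
    RudX a k (fun _ v => (α v * d v + β v) % p v % N v = y v) := by
  refine RudX.bind (f := fun v => (α v * d v + β v) % p v) (P := fun _ v x => x % N v = y v)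
    (RFun.mod ((hα.mul hd).add hβ) hp) ?_
  refine RudX.bind (f := fun w => w 0 % N (Fin.tail w)) (P := fun _ w x => x = y (Fin.tail w))
    (RFun.mod (IsPoly.var 0) hN.tail) ?_
  exact RudX.eq (IsPoly.var 0) hy.tail.tail

lemma Cov_rudX (t : ℕ) {p m : (Fin k → ℕ) → ℕ} (hp : IsPoly k p) (hm : IsPoly k m)
    {G : SOA a → (Fin k → ℕ) → ℕ → Prop}
    (hG : RudX a (k + 1) (fun X w => G X (Fin.tail w) (w 0))) :
    RudX a k (fun X v => Cov t (p v) (G X v) (m v)) := by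
  unfold Cov
  refine RudX.exTuple hp (P := fun X v α => ∃ b : Fin t → ℕ, (∀ i, b i ≤ p v) ∧
    ∀ z, z < m v → ∃ i, ∃ d, d ≤ p v ∧ (G X v d ∧ (α i * d + b i) % p v % m v = z)) ?_
  intro l f α hf hα
  refine RudX.exTuple (t := fun v => p (fun i => f i v)) (hp.comp hf)
    (P := fun X v β => ∀ z, z < m (fun i => f i v) → ∃ i, ∃ d, d ≤ p (fun i => f i v) ∧
      (G X (fun i => f i v) d ∧ (α i v * d + β i) % p (fun i => f i v) %
        m (fun i => f i v) = z)) ?_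
  intro l' g β hg hβ
  have hF : ∀ i, IsPoly l' (fun v => f i (fun j => g j v)) := fun i => (hf i).comp hg
  have hP : IsPoly l' (fun v => p (fun i => f i (fun j => g j v))) := hp.comp hF
  have hM : IsPoly l' (fun v => m (fun i => f i (fun j => g j v))) := hm.comp hF
  have hA : ∀ i, IsPoly l' (fun v => α i (fun j => g j v)) := fun i => (hα i).comp hg
  have h1 : RudX a l' (fun X v => ∀ z, z ≤ m (fun i => f i (fun j => g j v)) →
      (z < m (fun i => f i (fun j => g j v)) → ∃ i, ∃ d, d ≤ p (fun i => f i (fun j => g j v)) ∧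
      (G X (fun i => f i (fun j => g j v)) d ∧ (α i (fun j => g j v) * d + β i v) %
        p (fun i => f i (fun j => g j v)) % m (fun i => f i (fun j => g j v)) = z))) := by
    refine RudX.all hM (RudX.imp (RudX.lt (IsPoly.var 0) hM.tail) (RudX.ex_fin (fun i =>
      RudX.ex hP.tail (RudX.and' ?_ ?_))))
    · refine (hG.subst (l' + 1 + 1) (Fin.cons (fun w => w 0)
        (fun i w => f i (fun j => g j (Fin.tail (Fin.tail w))))) ?_).congr (fun X w => ?_)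
      · intro i
        refine Fin.cases ?_ (fun i => ?_) i
        · exact IsPoly.var 0
        · exact (hF i).tail.tail
      · rfl
    · exact HV_rudX (hA i).tail.tail (hβ i).tail.tail hP.tail.tail hM.tail.tail (IsPoly.var 0)
        (IsPoly.var 1)
  refine h1.congr (fun X v => ?_)
  constructor
  · intro h z _ hz
    exact h z hz
  · intro h z hz
    exact h z hz.le hz

lemma Win_rudX {D : Set ℕ} (hD : IsRudimentary D) (c : ℕ) {N d : (Fin k → ℕ) → ℕ}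
    (hN : IsPoly k N) (hd : IsPoly k d) : RudX a k (fun _ v => Win D c (N v) (d v)) :=
  RudX.and' (RudX.mem hD hd) (RudX.and' (RudX.le hN hd) (RudX.lt hd (hN.pow c)))

lemma Gd_rudX {D : Set ℕ} (hD : IsRudimentary D) (c t : ℕ) {N : (Fin k → ℕ) → ℕ}
    (hN : IsPoly k N) {w : Fin 4 → (Fin k → ℕ) → ℕ} (hw : ∀ i, IsPoly k (w i)) :
    RudX a k (fun _ v => Gd D c t (N v) (fun i => w i v)) := by
  refine RudX.and' (RudX.and' (RudX.le (IsPoly.const 2) (hw 0)) (RudX.all (hw 0)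
    (RudX.all (hw 0).tail (RudX.imp ?_ (RudX.or ?_ ?_))))) (RudX.and' (RudX.le (hN.pow _) (hw 0))
    (RudX.and' ?_ (RudX.and' ?_ (RudX.all hN (RudX.imp (RudX.lt (IsPoly.var 0) hN.tail) ?_)))))
  · exact RudX.eq (hw 0).tail.tail ((IsPoly.var 1).mul (IsPoly.var 0))
  · exact RudX.eq (s := fun w => w 1) (IsPoly.var 1) (IsPoly.const 1)
  · exact RudX.eq (s := fun w => w 0) (IsPoly.var 0) (IsPoly.const 1)
  · exact Cov_rudX t (hw 0) ((hw 3).mul (hN.pow 8)) (G := fun _ v => Win D c (N v))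
      (Win_rudX hD c hN.tail (IsPoly.var 0))
  · exact (Cov_rudX t (hw 0) (((hw 3).add (IsPoly.const 1)).mul (hN.pow 8))
      (G := fun _ v => Win D c (N v)) (Win_rudX hD c hN.tail (IsPoly.var 0))).not'
  · refine Cov_rudX t (hw 0).tail ((hw 3).tail.mul (hN.tail.pow 4))
      (G := fun _ v d => Win D c (N (Fin.tail v)) d ∧
        (w 1 (Fin.tail v) * d + w 2 (Fin.tail v)) % w 0 (Fin.tail v) % N (Fin.tail v) = v 0) ?_
    exact RudX.and' (Win_rudX hD c hN.tail.tail (IsPoly.var 0))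
      (HV_rudX (hw 1).tail.tail (hw 2).tail.tail (hw 0).tail.tail hN.tail.tail (IsPoly.var 0)
        (IsPoly.var 1))

lemma IsPoly.Bd {c t : ℕ} {N : (Fin k → ℕ) → ℕ} (hN : IsPoly k N) :
    IsPoly k (fun v => Bd c t (N v)) :=
  ((IsPoly.const 2).mul (hN.pow _)).add ((IsPoly.const t).mul (hN.pow _))

lemma LG_rudX {D : Set ℕ} (hD : IsRudimentary D) (c t : ℕ) {N : (Fin k → ℕ) → ℕ}
    (hN : IsPoly k N) {w : Fin 4 → (Fin k → ℕ) → ℕ} (hw : ∀ i, IsPoly k (w i)) :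
    RudX a k (fun _ v => LG D c t (N v) (fun i => w i v)) := by
  refine RudX.and' (RudX.all_fin (fun i => RudX.le (hw i) (IsPoly.Bd hN))) (RudX.and'
    (Gd_rudX hD c t hN hw) ?_)
  refine RudX.allTuple (t := fun v => Bd c t (N v)) (IsPoly.Bd hN)
    (P := fun _ v w' => Gd D c t (N v) w' → tup 4 (fun i => w i v) ≤ tup 4 w') ?_
  intro m f g hf hg
  exact RudX.imp (Gd_rudX hD c t (hN.comp hf) hg)
    (RudX.le (IsPoly.tup (fun i => (hw i).comp hf)) (IsPoly.tup hg))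

lemma HH_rudX {D : Set ℕ} (hD : IsRudimentary D) {c : ℕ} (hc : 2 ≤ c) (t : ℕ)
    {d y : (Fin k → ℕ) → ℕ} (hd : IsPoly k d) (hy : IsPoly k y) :
    RudX a k (fun _ v => HH D c t (d v) (y v)) := by
  refine RudX.and' (RudX.mem hD hd) (RudX.ex hd (RudX.and' (Scl_rudX hc (IsPoly.var 0))
    (RudX.and' (RudX.lt hd.tail ((IsPoly.var 0).pow c)) (RudX.and'
      (RudX.lt hy.tail (IsPoly.var 0)) ?_))))
  refine RudX.exTuple (t := fun v => Bd c t (v 0)) (IsPoly.Bd (IsPoly.var 0))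
    (P := fun _ v w => LG D c t (v 0) w ∧ (w 1 * d (Fin.tail v) + w 2) % w 0 % v 0 =
      y (Fin.tail v)) ?_
  intro m f g hf hg
  exact RudX.and' (LG_rudX hD c t (hf 0) hg) (HV_rudX (hg 1) (hg 2) (hg 0) (hf 0)
    (hd.tail.comp hf) (hy.tail.comp hf))

lemma Dc_rudX {D R : Set ℕ} (hD : IsRudimentary D) (hR : IsRudimentary R) {c : ℕ} (hc : 2 ≤ c)
    (t : ℕ) {y : (Fin k → ℕ) → ℕ} (hy : IsPoly k y) :
    RudX a k (fun _ v => Dc D R c t (y v)) := by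
  refine RudX.ex ((hy.pow c).add (IsPoly.const 2)) (RudX.and' (Scl_rudX hc (IsPoly.var 0))
    (RudX.and' (RudX.lt hy.tail (IsPoly.var 0)) ?_))
  refine RudX.exTuple (t := fun v => Bd c t (v 0)) (IsPoly.Bd (IsPoly.var 0))
    (P := fun _ v w => LG D c t (v 0) w ∧ Cov t (w 0) (fun d => (Win D c (v 0) d ∧
      (w 1 * d + w 2) % w 0 % v 0 = y (Fin.tail v)) ∧ d ∈ R) (w 3)) ?_
  intro m f g hf hg
  refine RudX.and' (LG_rudX hD c t (hf 0) hg) (Cov_rudX t (hg 0) (hg 3)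
    (G := fun _ v d => (Win D c (f 0 v) d ∧ (g 1 v * d + g 2 v) % g 0 v % f 0 v =
      y (Fin.tail (fun i => f i v))) ∧ d ∈ R) ?_)
  exact RudX.and' (RudX.and' (Win_rudX hD c (hf 0).tail (IsPoly.var 0))
    (HV_rudX (hg 1).tail (hg 2).tail (hg 0).tail (hf 0).tail (IsPoly.var 0)
      ((hy.tail.comp hf).tail))) (RudX.mem hR (IsPoly.var 0))

end rud

/-- minimal good parameters exist -/
lemma exists_LG {D : Set ℕ} {c t N : ℕ} {w : Fin 4 → ℕ} (hw : ∀ i, w i ≤ Bd c t N)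
    (h : Gd D c t N w) : ∃ w, LG D c t N w := by
  classical
  have hex : ∃ n, ∃ w : Fin 4 → ℕ, (∀ i, w i ≤ Bd c t N) ∧ Gd D c t N w ∧ tup 4 w = n :=
    ⟨_, w, hw, h, rfl⟩
  obtain ⟨w₀, h1, h2, h3⟩ := Nat.find_spec hex
  refine ⟨w₀, h1, h2, fun w' h4 h5 => ?_⟩
  rw [h3]
  exact Nat.find_min' hex ⟨w', h4, h5, rfl⟩

lemma LG_unique {D : Set ℕ} {c t N : ℕ} {w w' : Fin 4 → ℕ} (h : LG D c t N w)
    (h' : LG D c t N w') : w = w' :=
  tup_inj (le_antisymm (h.2.2 w' h'.1 h'.2.1) (h'.2.2 w h.1 h.2.1))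

/-- the set of numbers whose hash value is in `A` -/
def USet (D A : Set ℕ) (c t : ℕ) : Set ℕ := {d | 1 ≤ d ∧ ∃ y, y ≤ d ∧ (HH D c t d y ∧ y ∈ A)}

lemma USet_isSpectrum {D : Set ℕ} (hD : IsRudimentary D) (Θ : Finset (ℕ × ℕ × ℕ × ℕ)) {c : ℕ}
    (hc : 2 ≤ c) (t : ℕ) : IsSpectrum (USet D (squareSizes Θ) c t) := by
  obtain ⟨C, hC⟩ := exists_SqCond Θ
  have h1 : RudX (fun _ : Fin (C + 1) => 2) 1 (fun X v => ∃ y, y ≤ v 0 ∧
      (HH D c t (v 0) y ∧ SqCond Θ C X y)) :=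
    RudX.ex (IsPoly.var 0) (RudX.and' (HH_rudX hD hc t (IsPoly.var 1) (IsPoly.var 0))
      (SqCond_rudX Θ C (IsPoly.var 0)))
  have h2 := h1.isSpectrum
  convert h2 using 1
  ext d
  simp only [USet, Set.mem_ofPred_eq, hC]
  constructor
  · rintro ⟨h0, y, hy, h3, X, hX⟩
    exact ⟨h0, X, y, hy, h3, hX⟩
  · rintro ⟨h0, X, y, hy, h3, hX⟩
    exact ⟨h0, y, hy, h3, X, hX⟩

lemma HH_iff {D : Set ℕ} {c t N d y : ℕ} (hc : 2 ≤ c) (hN : Scl c N) (hd : Win D c N d)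
    {w : Fin 4 → ℕ} (hw : LG D c t N w) : HH D c t d y ↔ (w 1 * d + w 2) % w 0 % N = y := by
  constructor
  · rintro ⟨_, N', h1, h2, h3, _, w', h4, h5, h6⟩
    obtain rfl := scl_unique hc hN h2 hd.2.1 hd.2.2 h1 h3
    rw [LG_unique hw h5]
    exact h6
  · intro h
    refine ⟨hd.1, N, hd.2.1, hN, hd.2.2, ?_, w, hw.1, hw, h⟩
    rw [← h]
    exact Nat.mod_lt _ (by have := scl_two_le hc hN; omega)

/-- membership in the coded set -/
lemma mem_USet {D A : Set ℕ} {c t N d y : ℕ} (hc : 2 ≤ c) (hN : Scl c N) (hd : Win D c N d)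
    {w : Fin 4 → ℕ} (hw : LG D c t N w) (hy : (w 1 * d + w 2) % w 0 % N = y) :
    d ∈ USet D A c t ↔ y ∈ A := by
  have h2 := scl_two_le hc hN
  constructor
  · rintro ⟨_, y', _, h1, h3⟩
    rw [HH_iff hc hN hd hw, hy] at h1
    exact h1 ▸ h3
  · intro hA
    refine ⟨by have := hd.2.1; omega, y, ?_, (HH_iff hc hN hd hw).2 hy, hA⟩
    have h1 : y < N := by
      rw [← hy]
      exact Nat.mod_lt _ (by omega)
    exact h1.le.trans hd.2.1

end Pool.Agent.Helper20.Spectra
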