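import Mathlib

/-!
# Linear hash functions
-/

set_option autoImplicit false

namespace Pool.Agent.Helper20.LocHash

open Finset

/-- number of residues -/
lemma card_class {p m z : ℕ} (hm : 1 ≤ m) (hmp : m ≤ p) (hz : z < m) :
    p ≤ 2 * m * ((range p).filter (fun x => x % m = z)).card := by
  have h1 : p / m ≤ ((range p).filter (fun x => x % m = z)).card := by
    have : ((range (p / m)).image (fun q => q * m + z)) ⊆
        (range p).filter (fun x => x % m = z) := by
      intro x hx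
      rw [mem_image] at hx
      obtain ⟨q, hq, rfl⟩ := hx
      rw [mem_range] at hq
      rw [mem_filter, mem_range]
      constructor
      · have h2 : (q + 1) * m ≤ p / m * m := Nat.mul_le_mul_right m hq
        have h3 := Nat.div_mul_le_self p m
        rw [add_mul, one_mul] at h2
        omega
      · rw [add_comm, Nat.add_mul_mod_self_right, Nat.mod_eq_of_lt hz]
    have h2 := card_le_card this
    rw [card_image_of_injOn, card_range] at h2
    · exact h2
    · intro x _ y _ hxy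
      simp only at hxy
      have : x * m = y * m := by omega
      exact Nat.eq_of_mul_eq_mul_right (by omega) this
  have h2 : 1 ≤ p / m := (Nat.one_le_div_iff (by omega)).2 hmp
  have h3 := Nat.div_add_mod p m
  have h4 := Nat.mod_lt p (show 0 < m by omega)
  calc p ≤ 2 * m * (p / m) := by nlinarith
    _ ≤ _ := Nat.mul_le_mul_left _ h1

section field

variable {p : ℕ} [Fact p.Prime]

lemma count_one (Z : Finset (ZMod p)) (d : ZMod p) :
    ((univ : Finset (ZMod p × ZMod p)).filter (fun ω => ω.1 * d + ω.2 ∈ Z)).card =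
      p * Z.card := by
  have : ((univ : Finset (ZMod p × ZMod p)).filter (fun ω => ω.1 * d + ω.2 ∈ Z)) =
      ((univ : Finset (ZMod p)) ×ˢ Z).image (fun w => (w.1, w.2 - w.1 * d)) := by
    ext ⟨a, b⟩
    simp only [mem_filter, mem_univ, true_and, mem_image, mem_product, Prod.mk.injEq,
      Prod.exists]
    constructor
    · intro h
      exact ⟨a, a * d + b, h, rfl, by ring⟩
    · rintro ⟨a', c, hc, rfl, rfl⟩
      have : a' * d + (c - a' * d) = c := by ring
      rw [this]
      exact hc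
  rw [this, card_image_of_injective, card_product, card_univ, ZMod.card]
  rintro ⟨a, b⟩ ⟨a', b'⟩ h
  simp only [Prod.mk.injEq] at h
  obtain ⟨rfl, h2⟩ := h
  simp only [Prod.mk.injEq, true_and]
  exact sub_left_injective h2

lemma count_two (Z : Finset (ZMod p)) {d d' : ZMod p} (hd : d ≠ d') :
    ((univ : Finset (ZMod p × ZMod p)).filter
      (fun ω => ω.1 * d + ω.2 ∈ Z ∧ ω.1 * d' + ω.2 ∈ Z)).card ≤ Z.card * Z.card := by
  rw [← card_product]
  refine card_le_card_of_injOn (fun ω => (ω.1 * d + ω.2, ω.1 * d' + ω.2)) ?_ ?_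
  · intro ω hω
    rw [mem_coe, mem_filter] at hω
    exact mem_product.2 hω.2
  · rintro ⟨a, b⟩ _ ⟨a', b'⟩ _ h
    simp only [Prod.mk.injEq] at h ⊢
    obtain ⟨h1, h2⟩ := h
    have h3 : (a - a') * (d - d') = 0 := by linear_combination h1 - h2
    have h4 : a = a' := by
      rcases mul_eq_zero.1 h3 with h | h
      · exact sub_eq_zero.1 h
      · exact absurd (sub_eq_zero.1 h) hd
    refine ⟨h4, ?_⟩
    subst h4
    linear_combination h1

/-- second moment bound -/
lemma miss_field (G Z : Finset (ZMod p)) :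
    ((univ : Finset (ZMod p × ZMod p)).filter (fun ω => ∀ d ∈ G, ω.1 * d + ω.2 ∉ Z)).card *
      (G.card * Z.card) ≤ p ^ 3 := by
  classical
  rcases Nat.eq_zero_or_pos (G.card * Z.card) with h0 | hpos
  · rw [h0, mul_zero]
    exact Nat.zero_le _
  set g := G.card with hg
  set ζ := Z.card with hζ
  let X : ZMod p × ZMod p → ℕ := fun ω => (G.filter (fun d => ω.1 * d + ω.2 ∈ Z)).card
  let supp := (univ : Finset (ZMod p × ZMod p)).filter (fun ω => X ω ≠ 0)
  have hΩ : (univ : Finset (ZMod p × ZMod p)).card = p ^ 2 := by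
    rw [card_univ, Fintype.card_prod, ZMod.card]
    ring
  have hmiss : ((univ : Finset (ZMod p × ZMod p)).filter (fun ω => ∀ d ∈ G, ω.1 * d + ω.2 ∉ Z)) =
      (univ : Finset (ZMod p × ZMod p)).filter (fun ω => ¬ X ω ≠ 0) := by
    ext ω
    simp only [mem_filter, mem_univ, true_and, not_not, X, card_eq_zero, filter_eq_empty_iff]
  have hcount : supp.card + ((univ : Finset (ZMod p × ZMod p)).filter
      (fun ω => ¬ X ω ≠ 0)).card = p ^ 2 := by
    rw [← hΩ]
    exact card_filter_add_card_filter_not (s := (univ : Finset (ZMod p × ZMod p))) _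
  have hX : ∀ ω, X ω = ∑ d ∈ G, if ω.1 * d + ω.2 ∈ Z then 1 else 0 := by
    intro ω
    simp only [X, card_filter]
  have hsum : ∑ ω : ZMod p × ZMod p, X ω = g * (p * ζ) := by
    simp only [hX]
    rw [sum_comm]
    have : ∀ d ∈ G, ∑ ω : ZMod p × ZMod p, (if ω.1 * d + ω.2 ∈ Z then 1 else 0) = p * ζ := by
      intro d _
      rw [← card_filter, count_one]
    rw [sum_congr rfl this, sum_const, smul_eq_mul]
  have hsq : ∑ ω : ZMod p × ZMod p, X ω ^ 2 ≤ g * (p * ζ) + g * (g * (ζ * ζ)) := by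
    have e1 : ∀ ω, X ω ^ 2 = ∑ d ∈ G, ∑ d' ∈ G,
        if (ω.1 * d + ω.2 ∈ Z ∧ ω.1 * d' + ω.2 ∈ Z) then 1 else 0 := by
      intro ω
      rw [sq, hX, sum_mul_sum]
      refine sum_congr rfl (fun d _ => sum_congr rfl (fun d' _ => ?_))
      by_cases h1 : ω.1 * d + ω.2 ∈ Z <;> by_cases h2 : ω.1 * d' + ω.2 ∈ Z <;> simp [h1, h2]
    simp only [e1]
    rw [sum_comm]
    have e2 : ∀ d ∈ G, ∑ ω : ZMod p × ZMod p, ∑ d' ∈ G,
        (if (ω.1 * d + ω.2 ∈ Z ∧ ω.1 * d' + ω.2 ∈ Z) then 1 else 0) ≤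
        p * ζ + g * (ζ * ζ) := by
      intro d hd
      rw [sum_comm]
      have e3 : ∀ d' ∈ G, ∑ ω : ZMod p × ZMod p,
          (if (ω.1 * d + ω.2 ∈ Z ∧ ω.1 * d' + ω.2 ∈ Z) then 1 else 0) ≤
          (if d' = d then p * ζ else 0) + ζ * ζ := by
        intro d' _
        rw [← card_filter]
        by_cases hdd : d' = d
        · subst hdd
          rw [if_pos rfl]
          simp only [and_self]
          rw [count_one]
          exact Nat.le_add_right _ _
        · rw [if_neg hdd, zero_add]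
          exact count_two Z (Ne.symm hdd)
      refine (sum_le_sum e3).trans ?_
      rw [sum_add_distrib, sum_ite_eq' G d, if_pos hd, sum_const, smul_eq_mul]
    refine (sum_le_sum e2).trans ?_
    rw [sum_const, smul_eq_mul, mul_add]
  have hcs : (g * (p * ζ)) ^ 2 ≤ supp.card * (g * (p * ζ) + g * (g * (ζ * ζ))) := by
    have h1 : ∑ ω ∈ supp, X ω = g * (p * ζ) := by
      rw [← hsum]
      exact sum_filter_ne_zero _
    have h2 := sq_sum_le_card_mul_sum_sq (s := supp) (f := X)
    rw [h1] at h2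
    refine h2.trans (Nat.mul_le_mul_left _ ?_)
    refine le_trans (sum_le_sum_of_subset (filter_subset _ _)) hsq
  have hpp : 0 < p := (Fact.out : p.Prime).pos
  have hgpos : 0 < g := Nat.pos_of_mul_pos_right hpos
  have hζpos : 0 < ζ := Nat.pos_of_mul_pos_left hpos
  -- divide
  have h3 : p ^ 2 * (g * ζ) ≤ supp.card * (p + g * ζ) := by
    have e1 : (g * (p * ζ)) ^ 2 = (p ^ 2 * (g * ζ)) * (g * ζ) := by ring
    have e2 : supp.card * (g * (p * ζ) + g * (g * (ζ * ζ))) =
        (supp.card * (p + g * ζ)) * (g * ζ) := by ring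
    rw [e1, e2] at hcs
    exact Nat.le_of_mul_le_mul_right hcs hpos
  rw [hmiss]
  set μ := ((univ : Finset (ZMod p × ZMod p)).filter (fun ω => ¬ X ω ≠ 0)).card with hμ
  have h4 : μ * (p + g * ζ) ≤ p ^ 3 := by
    have : (supp.card + μ) * (p + g * ζ) = p ^ 2 * (p + g * ζ) := by rw [hcount]
    nlinarith
  nlinarith [Nat.zero_le (μ * p)]

end field

/-- most linear functions hit the class `z` -/
lemma miss_nat {p : ℕ} (hp : p.Prime) {G : Finset ℕ} (hG : ∀ d ∈ G, d < p) {m z : ℕ}
    (hm : 1 ≤ m) (hmp : m ≤ p) (hz : z < m) :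
    (((range p) ×ˢ (range p)).filter (fun ω => ∀ d ∈ G, (ω.1 * d + ω.2) % p % m ≠ z)).card *
      G.card ≤ 2 * m * p ^ 2 := by
  have := Fact.mk hp
  have hp0 : p ≠ 0 := hp.ne_zero
  have : NeZero p := ⟨hp0⟩
  let c : ℕ → ZMod p := fun x => (x : ZMod p)
  have hcinj : ∀ x y, x < p → y < p → c x = c y → x = y := by
    intro x y hx hy hxy
    have h1 := congrArg ZMod.val hxy
    rw [ZMod.val_natCast_of_lt hx, ZMod.val_natCast_of_lt hy] at h1
    exact h1
  let G' : Finset (ZMod p) := G.image c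
  let Z0 : Finset ℕ := (range p).filter (fun x => x % m = z)
  let Z' : Finset (ZMod p) := Z0.image c
  have hG' : G'.card = G.card := card_image_of_injOn
    (fun x hx y hy hxy => hcinj x y (hG x hx) (hG y hy) hxy)
  have hZ' : Z'.card = Z0.card := card_image_of_injOn (fun x hx y hy hxy => by
    rw [mem_coe, mem_filter, mem_range] at hx hy
    exact hcinj x y hx.1 hy.1 hxy)
  have hmem : ∀ x : ℕ, (c x ∈ Z' ↔ x % p % m = z) := by
    intro x
    rw [mem_image]
    constructor
    · rintro ⟨y, hy, hxy⟩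
      rw [mem_filter, mem_range] at hy
      have h1 : y = x % p := by
        have h2 := (ZMod.natCast_eq_natCast_iff' y x p).1 hxy
        rw [Nat.mod_eq_of_lt hy.1] at h2
        exact h2
      rw [← h1]
      exact hy.2
    · intro h
      refine ⟨x % p, ?_, ?_⟩
      · rw [mem_filter, mem_range]
        exact ⟨Nat.mod_lt _ hp.pos, h⟩
      · show ((x % p : ℕ) : ZMod p) = (x : ZMod p)
        exact ZMod.natCast_mod x p
  have h1 := miss_field G' Z'
  rw [hG', hZ'] at h1
  have h2 : (((range p) ×ˢ (range p)).filter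
      (fun ω => ∀ d ∈ G, (ω.1 * d + ω.2) % p % m ≠ z)).card ≤
      ((univ : Finset (ZMod p × ZMod p)).filter (fun ω => ∀ d ∈ G', ω.1 * d + ω.2 ∉ Z')).card := by
    refine card_le_card_of_injOn (fun ω => (c ω.1, c ω.2)) ?_ ?_
    · rintro ⟨a, b⟩ hω
      rw [mem_coe, mem_filter] at hω
      rw [mem_coe, mem_filter]
      refine ⟨mem_univ _, fun d hd => ?_⟩
      obtain ⟨d0, hd0, rfl⟩ := mem_image.1 hd
      have e : c a * c d0 + c b = c (a * d0 + b) := by
        show (a : ZMod p) * (d0 : ZMod p) + (b : ZMod p) = ((a * d0 + b : ℕ) : ZMod p)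
        push_cast
        ring
      show c a * c d0 + c b ∉ Z'
      rw [e, hmem]
      exact hω.2 d0 hd0
    · rintro ⟨a, b⟩ hω ⟨a', b'⟩ hω' h
      rw [mem_coe, mem_filter, mem_product, mem_range, mem_range] at hω hω'
      simp only [Prod.mk.injEq] at h ⊢
      exact ⟨hcinj _ _ hω.1.1 hω'.1.1 h.1, hcinj _ _ hω.1.2 hω'.1.2 h.2⟩
  have h3 := card_class hm hmp hz
  set μ := (((range p) ×ˢ (range p)).filter
      (fun ω => ∀ d ∈ G, (ω.1 * d + ω.2) % p % m ≠ z)).card with hμ
  have h4 : μ * (G.card * Z0.card) ≤ p ^ 3 := (Nat.mul_le_mul_right _ h2).trans h1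
  have h5 : μ * G.card * p ≤ 2 * m * p ^ 2 * p := by
    calc μ * G.card * p ≤ μ * G.card * (2 * m * Z0.card) := Nat.mul_le_mul_left _ h3
      _ = 2 * m * (μ * (G.card * Z0.card)) := by ring
      _ ≤ 2 * m * p ^ 3 := Nat.mul_le_mul_left _ h4
      _ = 2 * m * p ^ 2 * p := by ring
  exact Nat.le_of_mul_le_mul_right h5 hp.pos

/-- union bound for tuples -/
lemma exists_cover {Ω : Type} (S : Finset Ω) (m t B : ℕ) (Bad : ℕ → Finset Ω)
    (hB : ∀ z, z < m → (Bad z).card ≤ B)
    (h : m * B ^ t < S.card ^ t) :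
    ∃ ω : Fin t → Ω, (∀ i, ω i ∈ S) ∧ ∀ z, z < m → ∃ i, ω i ∉ Bad z := by
  classical
  by_contra hcon
  push Not at hcon
  have h1 : Fintype.piFinset (fun _ : Fin t => S) ⊆
      (range m).biUnion (fun z => Fintype.piFinset (fun _ : Fin t => Bad z)) := by
    intro ω hω
    rw [Fintype.mem_piFinset] at hω
    obtain ⟨z, hz, hz'⟩ := hcon ω hω
    rw [mem_biUnion]
    exact ⟨z, mem_range.2 hz, Fintype.mem_piFinset.2 hz'⟩
  have h2 := card_le_card h1
  rw [Fintype.card_piFinset_const] at h2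
  have h3 : ((range m).biUnion (fun z => Fintype.piFinset (fun _ : Fin t => Bad z))).card ≤
      m * B ^ t := by
    have h4 := card_biUnion_le_card_mul (range m)
      (fun z => Fintype.piFinset (fun _ : Fin t => Bad z)) (B ^ t) (fun z hz => by
        rw [Fintype.card_piFinset_const]
        exact Nat.pow_le_pow_left (hB z (mem_range.1 hz)) t)
    rwa [card_range] at h4
  omega

/-- `t` linear functions which map `G` onto all residues modulo `m` -/
def Cov (t p : ℕ) (G : ℕ → Prop) (m : ℕ) : Prop :=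
  ∃ a : Fin t → ℕ, (∀ i, a i ≤ p) ∧ ∃ b : Fin t → ℕ, (∀ i, b i ≤ p) ∧
    ∀ z, z < m → ∃ i, ∃ d, d ≤ p ∧ (G d ∧ (a i * d + b i) % p % m = z)

lemma cov_le {t p m : ℕ} {G : ℕ → Prop} {G' : Finset ℕ} (hG : ∀ d, G d → d ∈ G')
    (h : Cov t p G m) : m ≤ t * G'.card := by
  classical
  obtain ⟨a, _, b, _, h⟩ := h
  have h1 : range m ⊆ ((univ : Finset (Fin t)) ×ˢ G').image
      (fun w => (a w.1 * w.2 + b w.1) % p % m) := by
    intro z hz
    obtain ⟨i, d, _, hd, he⟩ := h z (mem_range.1 hz)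
    exact mem_image.2 ⟨(i, d), mem_product.2 ⟨mem_univ _, hG d hd⟩, he⟩
  have h2 := (card_le_card h1).trans card_image_le
  rwa [card_range, card_product, card_univ, Fintype.card_fin] at h2

lemma cov_of_card {t p m K : ℕ} (hp : p.Prime) {G : ℕ → Prop} {G' : Finset ℕ}
    (hG : ∀ d ∈ G', G d ∧ d < p) (hmp : m ≤ p) (hcard : 2 * m * K ≤ G'.card) (hK : m < K ^ t) :
    Cov t p G m := by
  classical
  rcases Nat.eq_zero_or_pos m with rfl | hm
  · exact ⟨fun _ => 0, fun _ => Nat.zero_le _, fun _ => 0, fun _ => Nat.zero_le _,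
      fun z hz => absurd hz (Nat.not_lt_zero _)⟩
  let S := (range p) ×ˢ (range p)
  let Bad : ℕ → Finset (ℕ × ℕ) := fun z =>
    S.filter (fun ω => ∀ d ∈ G', (ω.1 * d + ω.2) % p % m ≠ z)
  have hK0 : 0 < K := by
    rcases Nat.eq_zero_or_pos K with rfl | h
    · rcases Nat.eq_zero_or_pos t with rfl | ht
      · simp at hK
        omega
      · rw [zero_pow (by omega)] at hK
        omega
    · exact h
  have hg : 0 < G'.card := lt_of_lt_of_le (by positivity) hcard
  have hbad : ∀ z, z < m → (Bad z).card * K ≤ p ^ 2 := by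
    intro z hz
    have h1 := miss_nat hp (fun d hd => (hG d hd).2) hm hmp hz
    have h2 : (Bad z).card * (2 * m * K) ≤ 2 * m * p ^ 2 :=
      (Nat.mul_le_mul_left _ hcard).trans h1
    have h3 : (Bad z).card * K * (2 * m) ≤ p ^ 2 * (2 * m) := by
      calc (Bad z).card * K * (2 * m) = (Bad z).card * (2 * m * K) := by ring
        _ ≤ 2 * m * p ^ 2 := h2
        _ = p ^ 2 * (2 * m) := by ring
    exact Nat.le_of_mul_le_mul_right h3 (by positivity)
  have hB : ∀ z, z < m → (Bad z).card ≤ p ^ 2 / K := by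
    intro z hz
    rw [Nat.le_div_iff_mul_le hK0]
    exact hbad z hz
  have hS : S.card = p ^ 2 := by
    rw [card_product, card_range]
    ring
  have hlt : m * (p ^ 2 / K) ^ t < S.card ^ t := by
    rw [hS]
    rcases Nat.eq_zero_or_pos t with rfl | ht
    · simp at hK
      omega
    rcases Nat.eq_zero_or_pos (p ^ 2 / K) with h0 | h0
    · rw [h0, zero_pow (by omega), mul_zero]
      exact pow_pos (pow_pos hp.pos 2) t
    · calc m * (p ^ 2 / K) ^ t < K ^ t * (p ^ 2 / K) ^ t :=
          Nat.mul_lt_mul_of_pos_right hK (pow_pos h0 t)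
        _ = (K * (p ^ 2 / K)) ^ t := by rw [mul_pow]
        _ ≤ (p ^ 2) ^ t := Nat.pow_le_pow_left (Nat.mul_div_le _ _) t
  obtain ⟨ω, hω, hcov⟩ := exists_cover S m t (p ^ 2 / K) Bad hB hlt
  refine ⟨fun i => (ω i).1, fun i => ?_, fun i => (ω i).2, fun i => ?_, fun z hz => ?_⟩
  · have := (mem_product.1 (hω i)).1
    exact (mem_range.1 this).le
  · have := (mem_product.1 (hω i)).2
    exact (mem_range.1 this).le
  · obtain ⟨i, hi⟩ := hcov z hz
    have h1 : ¬ ∀ d ∈ G', ((ω i).1 * d + (ω i).2) % p % m ≠ z := by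
      intro h2
      exact hi (mem_filter.2 ⟨hω i, h2⟩)
    push Not at h1
    obtain ⟨d, hd, he⟩ := h1
    exact ⟨i, d, (hG d hd).2.le, (hG d hd).1, he⟩

/-- a linear function all of whose fibres are large -/
lemma good_hash {p N M : ℕ} (hp : p.Prime) {G : Finset ℕ} (hG : ∀ d ∈ G, d < p)
    (hN : 1 ≤ N) (hM : 1 ≤ M) (hNM : N * M ≤ p) (hcard : 4 * N ^ 2 * M < G.card) :
    ∃ a b, a < p ∧ b < p ∧ ∀ y, y < N →
      M ≤ 2 * (G.filter (fun d => (a * d + b) % p % N = y)).card := by
  classical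
  let S := (range p) ×ˢ (range p)
  let Bad : ℕ → Finset (ℕ × ℕ) := fun z =>
    S.filter (fun ω => ∀ d ∈ G, (ω.1 * d + ω.2) % p % (N * M) ≠ z)
  have hNM1 : 1 ≤ N * M := Nat.one_le_iff_ne_zero.2 (Nat.mul_ne_zero (by omega) (by omega))
  have hbad : ∀ z, z < N * M → (Bad z).card * G.card ≤ 2 * (N * M) * p ^ 2 :=
    fun z hz => miss_nat hp hG hNM1 hNM hz
  -- number of missed residues in the class of `y`
  let miss : ℕ → ℕ × ℕ → ℕ := fun y ω => ((range M).filter (fun j => ω ∈ Bad (y + N * j))).card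
  have hsum : ∀ y, y < N → (∑ ω ∈ S, miss y ω) * G.card ≤ M * (2 * (N * M) * p ^ 2) := by
    intro y hy
    have e1 : ∑ ω ∈ S, miss y ω = ∑ j ∈ range M, (Bad (y + N * j)).card := by
      simp only [miss, card_filter]
      rw [sum_comm]
      refine sum_congr rfl (fun j _ => ?_)
      rw [← card_filter]
      congr 1
      ext ω
      simp only [mem_filter]
      constructor
      · exact fun h => h.2
      · exact fun h => ⟨(mem_filter.1 h).1, h⟩
    rw [e1, sum_mul]
    calc ∑ j ∈ range M, (Bad (y + N * j)).card * G.card ≤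
        ∑ j ∈ range M, 2 * (N * M) * p ^ 2 := by
          refine sum_le_sum (fun j hj => hbad _ ?_)
          have h1 : j + 1 ≤ M := mem_range.1 hj
          calc y + N * j < N + N * j := by omega
            _ = N * (j + 1) := by ring
            _ ≤ N * M := Nat.mul_le_mul_left _ h1
      _ = M * (2 * (N * M) * p ^ 2) := by rw [sum_const, card_range, smul_eq_mul]
  -- bad functions for `y`
  let B2 : ℕ → Finset (ℕ × ℕ) := fun y => S.filter (fun ω => M < 2 * miss y ω)
  have hB2 : ∀ y, y < N → (B2 y).card * (M * G.card) ≤ M * (4 * (N * M) * p ^ 2) := by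
    intro y hy
    have h1 : (B2 y).card * M ≤ 2 * ∑ ω ∈ S, miss y ω := by
      calc (B2 y).card * M = ∑ ω ∈ B2 y, M := by rw [sum_const, smul_eq_mul]
        _ ≤ ∑ ω ∈ B2 y, 2 * miss y ω := sum_le_sum (fun ω hω => (mem_filter.1 hω).2.le)
        _ ≤ ∑ ω ∈ S, 2 * miss y ω := sum_le_sum_of_subset (filter_subset _ _)
        _ = 2 * ∑ ω ∈ S, miss y ω := by rw [mul_sum]
    calc (B2 y).card * (M * G.card) = (B2 y).card * M * G.card := by ring
      _ ≤ 2 * (∑ ω ∈ S, miss y ω) * G.card := Nat.mul_le_mul_right _ h1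
      _ = 2 * ((∑ ω ∈ S, miss y ω) * G.card) := by ring
      _ ≤ 2 * (M * (2 * (N * M) * p ^ 2)) := Nat.mul_le_mul_left _ (hsum y hy)
      _ = M * (4 * (N * M) * p ^ 2) := by ring
  have hB2' : ∀ y, y < N → (B2 y).card * G.card ≤ 4 * (N * M) * p ^ 2 := by
    intro y hy
    have h1 := hB2 y hy
    have h2 : (B2 y).card * G.card * M ≤ 4 * (N * M) * p ^ 2 * M := by
      calc (B2 y).card * G.card * M = (B2 y).card * (M * G.card) := by ring
        _ ≤ M * (4 * (N * M) * p ^ 2) := h1
        _ = _ := by ring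
    exact Nat.le_of_mul_le_mul_right h2 (by omega)
  have hS : S.card = p ^ 2 := by
    rw [card_product, card_range]
    ring
  -- a good function
  obtain ⟨ω, hω, hgood⟩ : ∃ ω ∈ S, ∀ y, y < N → ω ∉ B2 y := by
    by_contra hcon
    push Not at hcon
    have h1 : S ⊆ (range N).biUnion B2 := by
      intro ω hω
      obtain ⟨y, hy, hy'⟩ := hcon ω hω
      exact mem_biUnion.2 ⟨y, mem_range.2 hy, hy'⟩
    have h2 := (card_le_card h1).trans card_biUnion_le
    have h3 : p ^ 2 * G.card ≤ N * (4 * (N * M) * p ^ 2) := by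
      calc p ^ 2 * G.card = S.card * G.card := by rw [hS]
        _ ≤ (∑ y ∈ range N, (B2 y).card) * G.card := Nat.mul_le_mul_right _ h2
        _ = ∑ y ∈ range N, (B2 y).card * G.card := by rw [sum_mul]
        _ ≤ ∑ y ∈ range N, 4 * (N * M) * p ^ 2 :=
          sum_le_sum (fun y hy => hB2' y (mem_range.1 hy))
        _ = N * (4 * (N * M) * p ^ 2) := by rw [sum_const, card_range, smul_eq_mul]
    have h4 : G.card * p ^ 2 ≤ (4 * N ^ 2 * M) * p ^ 2 := by
      calc G.card * p ^ 2 = p ^ 2 * G.card := by ring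
        _ ≤ N * (4 * (N * M) * p ^ 2) := h3
        _ = _ := by ring
    have h5 := Nat.le_of_mul_le_mul_right h4 (pow_pos hp.pos 2)
    omega
  obtain ⟨a, b⟩ := ω
  have hab := mem_product.1 hω
  refine ⟨a, b, mem_range.1 hab.1, mem_range.1 hab.2, fun y hy => ?_⟩
  have h1 : ¬ M < 2 * miss y (a, b) := fun h => hgood y hy (mem_filter.2 ⟨hω, h⟩)
  -- hit residues
  let hit := (range M).filter (fun j => (a, b) ∉ Bad (y + N * j))
  have h2 : miss y (a, b) + hit.card = M := by
    have := card_filter_add_card_filter_not (s := range M) (fun j => (a, b) ∈ Bad (y + N * j))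
    rwa [card_range] at this
  have h3 : hit.card ≤ (G.filter (fun d => (a * d + b) % p % N = y)).card := by
    have h4 : ∀ j ∈ hit, ∃ d ∈ G, (a * d + b) % p % (N * M) = y + N * j := by
      intro j hj
      have h5 := (mem_filter.1 hj).2
      have h6 : ¬ ∀ d ∈ G, (a * d + b) % p % (N * M) ≠ y + N * j :=
        fun h7 => h5 (mem_filter.2 ⟨hω, h7⟩)
      push Not at h6
      exact h6
    choose! f hf hf' using h4
    refine card_le_card_of_injOn f ?_ ?_
    · intro j hj
      rw [mem_coe] at hj ⊢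
      rw [mem_filter]
      refine ⟨hf j hj, ?_⟩
      rw [← Nat.mod_mul_right_mod ((a * f j + b) % p) N M, hf' j hj,
        Nat.add_mul_mod_self_left, Nat.mod_eq_of_lt hy]
    · intro j hj j' hj' he
      have h5 := hf' j hj
      have h6 := hf' j' hj'
      rw [he, h6] at h5
      have h7 : N * j' = N * j := by omega
      exact (Nat.eq_of_mul_eq_mul_left (by omega) h7).symm
  omega

end Pool.Agent.Helper20.LocHash
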