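import Pool.Agent.Helper20.Loc.Comb
import Pool.Agent.Helper20.Spectra.Approx

/-!
# Approximation on dense rudimentary sets
-/

set_option autoImplicit false

namespace Pool.Agent.Helper20.Spectra

lemma ncard_le_window (D : Set ℕ) (c N : ℕ) :
    ({m : ℕ | m ∈ D ∧ m < N ^ c} : Set ℕ).ncard ≤ (WinF D c N).card + N := by
  classical
  have h1 : ({m : ℕ | m ∈ D ∧ m < N ^ c} : Set ℕ) ⊆ ↑(WinF D c N ∪ Finset.range N) := by
    rintro m ⟨hm, hm'⟩
    rw [Finset.mem_coe, Finset.mem_union, mem_WinF, Finset.mem_range]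
    rcases Nat.lt_or_ge m N with h | h
    · exact Or.inr h
    · exact Or.inl ⟨hm, h, hm'⟩
  have h2 := Set.ncard_le_ncard h1 (Finset.finite_toSet _)
  rw [Set.ncard_coe_finset] at h2
  have h3 := Finset.card_union_le (WinF D c N) (Finset.range N)
  rw [Finset.card_range] at h3
  omega

/-- `D` has at least `x ^ δ` elements below every large `x` -/
lemma window_card {D : Set ℕ} {δ : ℝ} {c : ℕ} (hc : 2 ≤ c) (hcδ : 12 ≤ (c : ℝ) * δ) {x₀ : ℕ}
    (hd : ∀ x : ℕ, x₀ ≤ x → (x : ℝ) ^ δ ≤ (({m : ℕ | m ∈ D ∧ m < x} : Set ℕ).ncard : ℝ))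
    {N : ℕ} (hN : x₀ + 2 ≤ N) :
    2 * N ^ 9 ≤ (WinF D c N).card ∧
      ({m : ℕ | m ∈ D ∧ m < N ^ c} : Set ℕ).ncard ≤ 2 * (WinF D c N).card := by
  have h1 : N ≤ N ^ c := Nat.le_self_pow (by omega) N
  have h2 := hd (N ^ c) (by omega)
  have hN1 : (1 : ℝ) ≤ (N : ℝ) := by exact_mod_cast (by omega : 1 ≤ N)
  have h3 : (N : ℝ) ^ (12 : ℕ) ≤ ((N ^ c : ℕ) : ℝ) ^ δ := by
    push_cast
    rw [← Real.rpow_natCast, ← Real.rpow_natCast, ← Real.rpow_mul (by linarith)]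
    exact Real.rpow_le_rpow_of_exponent_le hN1 (by push_cast; exact hcδ)
  have h4 : N ^ 12 ≤ ({m : ℕ | m ∈ D ∧ m < N ^ c} : Set ℕ).ncard := by
    have h5 : ((N ^ 12 : ℕ) : ℝ) ≤ (({m : ℕ | m ∈ D ∧ m < N ^ c} : Set ℕ).ncard : ℝ) := by
      push_cast
      exact h3.trans h2
    exact_mod_cast h5
  have h5 := ncard_le_window D c N
  have h6 : 2 * N ^ 9 + 2 * N ≤ N ^ 12 := by
    have h7 : 8 ≤ N ^ 3 := by
      calc 8 = 2 ^ 3 := by norm_num
        _ ≤ N ^ 3 := Nat.pow_le_pow_left (by omega) 3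
    have h8 : N ≤ N ^ 9 := Nat.le_self_pow (by omega) N
    calc 2 * N ^ 9 + 2 * N ≤ 8 * N ^ 9 := by omega
      _ ≤ N ^ 3 * N ^ 9 := Nat.mul_le_mul_right _ h7
      _ = N ^ 12 := by ring
  constructor
  · omega
  · omega

/-- Approximation of a spectrum inside a dense rudimentary set. -/
theorem approx_on {D : Set ℕ} (hD : IsRudimentary D) {δ : ℝ} (hδ : 0 < δ) {x₀ : ℕ}
    (hd : ∀ x : ℕ, x₀ ≤ x → (x : ℝ) ^ δ ≤ (({m : ℕ | m ∈ D ∧ m < x} : Set ℕ).ncard : ℝ))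
    {ε : ℝ} (hε : 0 < ε) : ∃ U : Set ℕ, U ⊆ D ∧ IsSpectrum U ∧
      ((∀ A : Set ℕ, IsSpectrum A → IsRudimentary A) ↔
        ∃ R : Set ℕ, IsRudimentary R ∧ ∃ C : ℝ, ∀ x : ℕ, 1 ≤ x →
          (({m : ℕ | (m ∈ D ∧ m < x) ∧ ¬ (m ∈ U ↔ m ∈ R)} : Set ℕ).ncard : ℝ) ≤
            C * (({m : ℕ | m ∈ D ∧ m < x} : Set ℕ).ncard : ℝ) * (x : ℝ) ^ (-ε)) := by
  classical
  obtain ⟨Θ₀, hΘ₀⟩ := exists_universal_blocks
  obtain ⟨c, hc⟩ := exists_nat_ge (max 2 (max (12 / δ) (12 / ε)))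
  have hc2 : 2 ≤ c := by exact_mod_cast (le_max_left _ _).trans hc
  have hcδ : 12 ≤ (c : ℝ) * δ := by
    have h1 := ((le_max_left _ _).trans (le_max_right _ _)).trans hc
    rwa [div_le_iff₀ hδ] at h1
  have hcε : 12 ≤ (c : ℝ) * ε := by
    have h1 := ((le_max_right _ _).trans (le_max_right _ _)).trans hc
    rwa [div_le_iff₀ hε] at h1
  have hU := USet_isSpectrum hD Θ₀ hc2 (c + 3)
  refine ⟨USet D (squareSizes Θ₀) c (c + 3), ?_, hU, ?_, ?_⟩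
  · rintro d ⟨_, y, _, h, _⟩
    exact h.1
  · intro h
    refine ⟨_, h _ hU, 0, fun x _ => ?_⟩
    simp
  · rintro ⟨R, hR, C, hC⟩
    obtain ⟨K, hK⟩ := exists_nat_ge (2 * |C|)
    have hT : IsRudimentary (squareSizes Θ₀) := by
      refine rud_of_decode (D := D) (R := R) (K := K) (n₀ := x₀ + 2) hc2 hD hR
        (fun N hN => (window_card hc2 hcδ hd hN).1) (fun N hN => ?_)
      obtain ⟨h1, h2⟩ := window_card hc2 hcδ hd hN
      have hN1 : (1 : ℝ) ≤ (N : ℝ) := by exact_mod_cast (by omega : 1 ≤ N)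
      refine ⟨(WinF D c N).filter (fun d => ¬ (d ∈ USet D (squareSizes Θ₀) c (c + 3) ↔ d ∈ R)),
        fun d hd hd' => Finset.mem_filter.2 ⟨mem_WinF.2 hd, hd'⟩, ?_⟩
      set E := (WinF D c N).filter (fun d => ¬ (d ∈ USet D (squareSizes Θ₀) c (c + 3) ↔ d ∈ R))
        with hE
      have hfin : ({m : ℕ | (m ∈ D ∧ m < N ^ c) ∧
          ¬ (m ∈ USet D (squareSizes Θ₀) c (c + 3) ↔ m ∈ R)} : Set ℕ).Finite :=
        (Set.finite_Iio (N ^ c)).subset (fun m hm => hm.1.2)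
      have h3 : E.card ≤ ({m : ℕ | (m ∈ D ∧ m < N ^ c) ∧
          ¬ (m ∈ USet D (squareSizes Θ₀) c (c + 3) ↔ m ∈ R)} : Set ℕ).ncard := by
        rw [← Set.ncard_coe_finset E]
        refine Set.ncard_le_ncard (fun m hm => ?_) hfin
        rw [Finset.mem_coe, hE, Finset.mem_filter, mem_WinF] at hm
        exact ⟨⟨hm.1.1, hm.1.2.2⟩, hm.2⟩
      have h4 := hC (N ^ c) (Nat.one_le_pow _ _ (by omega))
      have h5 : ((N ^ c : ℕ) : ℝ) ^ (-ε) ≤ (N : ℝ) ^ (-12 : ℝ) := by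
        push_cast
        rw [← Real.rpow_natCast, ← Real.rpow_mul (by linarith)]
        exact Real.rpow_le_rpow_of_exponent_le hN1 (by linarith)
      have h6 : (N : ℝ) ^ (-12 : ℝ) * (N : ℝ) ^ (12 : ℕ) = 1 := by
        rw [← Real.rpow_natCast, ← Real.rpow_add (by linarith)]
        norm_num
      have h7 : (E.card : ℝ) ≤ |C| * (2 * ((WinF D c N).card : ℝ)) * (N : ℝ) ^ (-12 : ℝ) := by
        calc (E.card : ℝ) ≤ _ := Nat.cast_le.2 h3
          _ ≤ C * (({m : ℕ | m ∈ D ∧ m < N ^ c} : Set ℕ).ncard : ℝ) *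
              ((N ^ c : ℕ) : ℝ) ^ (-ε) := h4
          _ ≤ |C| * (2 * ((WinF D c N).card : ℝ)) * ((N ^ c : ℕ) : ℝ) ^ (-ε) := by
              refine mul_le_mul_of_nonneg_right ?_ (by positivity)
              refine mul_le_mul (le_abs_self C) ?_ (by positivity) (abs_nonneg C)
              exact_mod_cast h2
          _ ≤ _ := mul_le_mul_of_nonneg_left h5 (by positivity)
      have h8 : ((E.card * N ^ 12 : ℕ) : ℝ) ≤ ((K * (WinF D c N).card : ℕ) : ℝ) := by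
        push_cast
        calc (E.card : ℝ) * (N : ℝ) ^ 12 ≤
            |C| * (2 * ((WinF D c N).card : ℝ)) * (N : ℝ) ^ (-12 : ℝ) * (N : ℝ) ^ 12 :=
              mul_le_mul_of_nonneg_right h7 (by positivity)
          _ = 2 * |C| * ((WinF D c N).card : ℝ) * ((N : ℝ) ^ (-12 : ℝ) * (N : ℝ) ^ 12) := by ring
          _ = 2 * |C| * ((WinF D c N).card : ℝ) := by rw [h6, mul_one]
          _ ≤ K * ((WinF D c N).card : ℝ) := mul_le_mul_of_nonneg_right hK (by positivity)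
      exact_mod_cast h8
    intro A hA
    obtain ⟨q, rfl⟩ := hΘ₀ A hA
    exact hT.preimage q

end Pool.Agent.Helper20.Spectra
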